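import Pool.Agent.Zk60.NW.Hit
import Pool.Agent.H973R2.Conn
import Pool.Agent.H974R2.Sym

/-!
The two clusters reach a box: connection events of the square lattice.
-/

set_option autoImplicit false

namespace Pool.Agent.Zk60.NW

open H974 Finset H342P H984P H984N

/-- The cluster of the wired arc reaches the box. -/
def HitV (D : Dm) (x1 x2 y1 y2 : ℤ) (F : Finset Edg) : Prop :=
  ∃ v ∈ D.clu F, inR x1 x2 y1 y2 v

/-- The dual cluster of the complementary arc reaches the box. -/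
def HitF (D : Dm) (x1 x2 y1 y2 : ℤ) (F : Finset Edg) : Prop :=
  ∃ f ∈ D.dclu F, inR (x1 - 1) x2 (y1 - 1) y2 f

theorem first_hit' {α : Type*} {r r' : α → α → Prop} {P I : α → Prop}
    (h : ∀ a b, I a → ¬ P a → r a b → r' a b ∧ I b) {u v : α} (hu : I u)
    (huv : Relation.ReflTransGen r u v) (hv : I v → P v) :
    ∃ w, P w ∧ Relation.ReflTransGen r' u w := by
  have key : (∃ w, P w ∧ Relation.ReflTransGen r' u w) ∨
      (I v ∧ Relation.ReflTransGen r' u v) := by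
    clear hv
    induction huv with
    | refl => exact Or.inr ⟨hu, Relation.ReflTransGen.refl⟩
    | @tail b c _ hs ih =>
      rcases ih with ih | ⟨ih1, ih2⟩
      · exact Or.inl ih
      · by_cases hb : P b
        · exact Or.inl ⟨b, hb, ih2⟩
        · obtain ⟨h1, h2⟩ := h _ _ ih1 hb hs
          exact Or.inr ⟨h2, ih2.tail h1⟩
  rcases key with h1 | ⟨h1, h2⟩
  · exact h1
  · exact ⟨v, hv h1, h2⟩

/-- The rectangle without the inside of the box. -/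
noncomputable def V1 (D : Dm) (x1 x2 y1 y2 : ℤ) : Finset Vtx :=
  (Finset.Icc D.l D.r ×ˢ Finset.Icc 0 D.h) \ (Finset.Ioo x1 x2 ×ˢ Finset.Ioo y1 y2)

theorem mem_V1 {D : Dm} {x1 x2 y1 y2 : ℤ} {v : Vtx} : v ∈ V1 D x1 x2 y1 y2 ↔
    ((D.l ≤ v.1 ∧ v.1 ≤ D.r) ∧ (0 ≤ v.2 ∧ v.2 ≤ D.h)) ∧
      ¬ ((x1 < v.1 ∧ v.1 < x2) ∧ (y1 < v.2 ∧ v.2 < y2)) := by
  unfold V1
  rw [Finset.mem_sdiff, Finset.mem_product, Finset.mem_product, Finset.mem_Icc, Finset.mem_Icc,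
    Finset.mem_Ioo, Finset.mem_Ioo]

/-- The vertices of the wired arc. -/
def WA (D : Dm) : Set Vtx :=
  {v | (v.2 = D.h ∧ D.l ≤ v.1 ∧ v.1 ≤ D.t) ∨ (v.1 = D.l ∧ 0 ≤ v.2 ∧ v.2 ≤ D.h) ∨
    (v.2 = 0 ∧ D.l ≤ v.1 ∧ v.1 ≤ 0)}

/-- The sides of the box. -/
def J1 (x1 x2 y1 y2 : ℤ) : Set Vtx :=
  {v | inR x1 x2 y1 y2 v ∧ ¬ ((x1 < v.1 ∧ v.1 < x2) ∧ (y1 < v.2 ∧ v.2 < y2))}

theorem WA_clu {D : Dm} (hD : D.Ok) (F : Finset Edg) {v : Vtx} (hv : v ∈ WA D) :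
    v ∈ D.clu F := by
  obtain ⟨d1, d2, d3, d4, d5⟩ := hD
  obtain ⟨x, y⟩ := v
  have e1 := clu_bottom (D := D) F (-D.l).toNat (by omega)
  have e2 := clu_left (D := D) F D.h.toNat (by omega)
  have f1 : -(((-D.l).toNat : ℕ) : ℤ) = D.l := by omega
  have f2 : ((D.h.toNat : ℕ) : ℤ) = D.h := by omega
  rw [f1] at e1
  rw [f2] at e2
  rcases hv with ⟨rfl, h1, h2⟩ | ⟨rfl, h1, h2⟩ | ⟨rfl, h1, h2⟩
  · simp only at h1 h2
    have e3 := clu_top (D := D) F (x - D.l).toNat (by omega)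
    have f3 : D.l + (((x - D.l).toNat : ℕ) : ℤ) = x := by omega
    rw [f3] at e3
    exact (e1.trans e2).trans e3
  · simp only at h1 h2
    have e3 := clu_left (D := D) F y.toNat (by omega)
    have f3 : ((y.toNat : ℕ) : ℤ) = y := by omega
    rw [f3] at e3
    exact e1.trans e3
  · simp only at h1 h2
    have e3 := clu_bottom (D := D) F (-x).toNat (by omega)
    have f3 : -(((-x).toNat : ℕ) : ℤ) = x := by omega
    rw [f3] at e3
    exact e3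

theorem wir_WA {D : Dm} {e : Edg} (he : e ∈ D.wir) (hD : D.Ok) :
    src e ∈ WA D ∧ tgt e ∈ WA D := by
  obtain ⟨d1, d2, d3, d4, d5⟩ := hD
  obtain ⟨x, y, b⟩ := e
  rcases he with ⟨h1, h2, h3, h4⟩ | ⟨h1, h2, h3, h4⟩ | ⟨h1, h2, h3, h4⟩
  · simp only at h1 h2 h3 h4
    subst h1
    exact ⟨Or.inl ⟨h2, h3, by show x ≤ D.t; omega⟩,
      Or.inl ⟨h2, by show D.l ≤ x + 1; omega, by show x + 1 ≤ D.t; omega⟩⟩
  · simp only at h1 h2 h3 h4
    subst h1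
    exact ⟨Or.inr (Or.inl ⟨h2, h3, by show y ≤ D.h; omega⟩),
      Or.inr (Or.inl ⟨h2, by show 0 ≤ y + 1; omega, by show y + 1 ≤ D.h; omega⟩)⟩
  · simp only at h1 h2 h3 h4
    subst h1
    exact ⟨Or.inr (Or.inr ⟨h2, h3, by show x ≤ 0; omega⟩),
      Or.inr (Or.inr ⟨h2, by show D.l ≤ x + 1; omega, by show x + 1 ≤ 0; omega⟩)⟩

theorem hitV_iff {D : Dm} (hD : D.Ok) {F : Finset Edg} (hF : F ⊆ D.edges) {x1 x2 y1 y2 : ℤ}
    (hb : Bx D x1 x2 y1 y2) : HitV D x1 x2 y1 y2 F ↔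
      H12S.Cn (WA D) (J1 x1 x2 y1 y2) (↑(F ∩ H973.ES (V1 D x1 x2 y1 y2)) : Set Edg) := by
  have hb' := hb
  have hD' := hD
  obtain ⟨b1, b2, b3, b4, b5, b6⟩ := hb
  obtain ⟨d1, d2, d3, d4, d5⟩ := hD
  constructor
  · rintro ⟨v, hv, hvb⟩
    have hr : Reach (D.cfg F) (0, 0) v := hv
    have hst : ∀ a b, a ∈ V1 D x1 x2 y1 y2 → ¬ a ∈ J1 x1 x2 y1 y2 → Adj (D.cfg F) a b →
        Adj (D.cfg F ∩ ↑(H973.ES (V1 D x1 x2 y1 y2)) : Set Edg) a b ∧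
          b ∈ V1 D x1 x2 y1 y2 := by
      rintro a b ha ha' ⟨e, he, hc⟩
      have hin := clu_cfg_in hD' hF he
      have hbV : b ∈ V1 D x1 x2 y1 y2 := by
        have h1 : ¬ inR x1 x2 y1 y2 a := fun h2 => ha' ⟨h2, (mem_V1.1 ha).2⟩
        rw [mem_V1] at ha ⊢
        obtain ⟨x, y, c⟩ := e
        obtain ⟨ax, ay⟩ := a
        obtain ⟨bx, by'⟩ := b
        unfold inR at h1 hin
        cases c
        · simp only [src_mk, tgt_false, Prod.mk.injEq] at hc hin h1 ha ⊢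
          omega
        · simp only [src_mk, tgt_true, Prod.mk.injEq] at hc hin h1 ha ⊢
          omega
      refine ⟨⟨e, ⟨he, ?_⟩, hc⟩, hbV⟩
      rw [Finset.mem_coe, H973.mem_ES]
      rcases hc with ⟨h1, h2⟩ | ⟨h1, h2⟩
      · rw [h1, h2]; exact ⟨ha, hbV⟩
      · rw [h1, h2]; exact ⟨hbV, ha⟩
    obtain ⟨w, hw1, hw2⟩ := first_hit' (I := fun a => a ∈ V1 D x1 x2 y1 y2)
      (P := fun a => a ∈ J1 x1 x2 y1 y2) hst
      (by rw [mem_V1]; simp only; omega) hr (fun h1 => ⟨hvb, (mem_V1.1 h1).2⟩)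
    have hr2 : Reach (D.cfg F ∩ ↑(H973.ES (V1 D x1 x2 y1 y2)) : Set Edg) w (0, 0) :=
      Reach.symm hw2
    have hst2 : ∀ a b, ¬ a ∈ WA D →
        Adj (D.cfg F ∩ ↑(H973.ES (V1 D x1 x2 y1 y2)) : Set Edg) a b →
        Adj (↑(F ∩ H973.ES (V1 D x1 x2 y1 y2)) : Set Edg) a b := by
      rintro a b ha ⟨e, ⟨he1, he2⟩, hc⟩
      refine ⟨e, ?_, hc⟩
      rw [Finset.coe_inter]
      refine ⟨?_, he2⟩
      rcases he1 with h1 | h1
      · exact h1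
      · exfalso
        have h2 := wir_WA h1 hD'
        rcases hc with ⟨h3, _⟩ | ⟨_, h3⟩
        · exact ha (h3 ▸ h2.1)
        · exact ha (h3 ▸ h2.2)
    have h0 : ((0, 0) : Vtx) ∈ WA D := Or.inr (Or.inr ⟨rfl, d1.le, le_rfl⟩)
    obtain ⟨u, hu1, hu2⟩ := first_hit (P := fun a => a ∈ WA D) hst2 hr2 h0
    exact ⟨u, hu1, w, hw1, Reach.symm hu2⟩
  · rintro ⟨u, hu, v, hv, hr⟩
    have h1 : Reach (D.cfg F) u v := by
      refine hr.mono ?_
      intro e he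
      rw [Finset.coe_inter] at he
      exact Or.inl he.1
    have h2 : Reach (D.cfg F) (0, 0) u := WA_clu hD' F hu
    exact ⟨v, h2.trans h1, hv.1⟩

theorem hitV_pr {D : Dm} (hD : D.Ok) {x1 x2 y1 y2 : ℤ} (hb : Bx D x1 x2 y1 y2) (q : ℝ) :
    Pr (fun _ => q) D.edges (HitV D x1 x2 y1 y2) =
      Pr (fun _ => q) (H973.ES (V1 D x1 x2 y1 y2))
        (fun F => H12S.Cn (WA D) (J1 x1 x2 y1 y2) ↑F) := by
  have hsub : H973.ES (V1 D x1 x2 y1 y2) ⊆ D.edges := by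
    intro e he
    rw [H973.mem_ES, mem_V1, mem_V1] at he
    obtain ⟨x, y, b⟩ := e
    unfold Dm.edges
    cases b
    · simp only [src_mk, tgt_false] at he
      rw [mem_RE_false]
      omega
    · simp only [src_mk, tgt_true] at he
      rw [mem_RE_true]
      omega
  rw [Pr_congr (B := fun F => H12S.Cn (WA D) (J1 x1 x2 y1 y2)
    (↑(F ∩ H973.ES (V1 D x1 x2 y1 y2)) : Set Edg)) (fun F hF => hitV_iff hD hF hb)]
  rw [Pr_local hsub]
  · apply Pr_congr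
    intro F hF
    rw [Finset.inter_eq_left.mpr hF]
  · intro F _
    rw [Finset.inter_assoc, Finset.inter_self]

end Pool.Agent.Zk60.NW
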