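import Pool.Agent.Zk60.NW.Ev

/-!
The dual cluster reaches a box: a connection event of the square lattice, by duality.
-/

set_option autoImplicit false

namespace Pool.Agent.Zk60.NW

open H974 Finset H342P H984P H984N

/-- The edges off the wired arc. -/
noncomputable def S0 (D : Dm) : Finset Edg := by
  classical exact D.edges.filter (fun e => e ∉ D.wir)

theorem mem_S0 {D : Dm} {e : Edg} : e ∈ S0 D ↔ e ∈ D.edges ∧ e ∉ D.wir := by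
  classical
  unfold S0
  rw [Finset.mem_filter]

/-- The faces of the rectangle and those outside along the complementary arc, without the inside
of the box of faces. -/
noncomputable def V2 (D : Dm) (x1 x2 y1 y2 : ℤ) : Finset Vtx :=
  ((Finset.Icc D.l D.r ×ˢ Finset.Icc 0 (D.h - 1)) ∪ ((Finset.Icc 0 D.r ×ˢ Finset.Icc (-1) 0) ∪
    (Finset.Icc D.t D.r ×ˢ Finset.Icc (D.h - 1) D.h))) \
    (Finset.Ioo (x1 - 1) x2 ×ˢ Finset.Ioo (y1 - 1) y2)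

theorem mem_V2 {D : Dm} {x1 x2 y1 y2 : ℤ} {v : Vtx} : v ∈ V2 D x1 x2 y1 y2 ↔
    (((D.l ≤ v.1 ∧ v.1 ≤ D.r) ∧ (0 ≤ v.2 ∧ v.2 ≤ D.h - 1)) ∨
      ((0 ≤ v.1 ∧ v.1 ≤ D.r) ∧ (-1 ≤ v.2 ∧ v.2 ≤ 0)) ∨
      ((D.t ≤ v.1 ∧ v.1 ≤ D.r) ∧ (D.h - 1 ≤ v.2 ∧ v.2 ≤ D.h))) ∧
      ¬ ((x1 - 1 < v.1 ∧ v.1 < x2) ∧ (y1 - 1 < v.2 ∧ v.2 < y2)) := by
  unfold V2
  rw [Finset.mem_sdiff, Finset.mem_union, Finset.mem_union, Finset.mem_product,
    Finset.mem_product, Finset.mem_product, Finset.mem_product, Finset.mem_Icc, Finset.mem_Icc,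
    Finset.mem_Icc, Finset.mem_Icc, Finset.mem_Icc, Finset.mem_Icc, Finset.mem_Ioo,
    Finset.mem_Ioo]

/-- The sides of the box of faces. -/
def J2 (D : Dm) (x1 x2 y1 y2 : ℤ) : Set Vtx :=
  {v | v ∈ V2 D x1 x2 y1 y2 ∧ inR (x1 - 1) x2 (y1 - 1) y2 v}

theorem outer_V2 {D : Dm} (hD : D.Ok) {x1 x2 y1 y2 : ℤ} (hb : Bx D x1 x2 y1 y2) {g : Vtx}
    (hg : g ∈ D.outer) : g ∈ V2 D x1 x2 y1 y2 := by
  obtain ⟨b1, b2, b3, b4, b5, b6⟩ := hb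
  obtain ⟨d1, d2, d3, d4, d5⟩ := hD
  obtain ⟨x, y⟩ := g
  rw [mem_V2]
  rcases hg with ⟨h1, h2, h3⟩ | ⟨h1, h2, h3⟩ | ⟨h1, h2, h3⟩
  · simp only at h1 h2 h3 ⊢
    omega
  · simp only at h1 h2 h3 ⊢
    omega
  · simp only at h1 h2 h3 ⊢
    omega

/-- An edge between faces of `V2` which are not both outside is dual to an edge off the wired
arc. -/
theorem dual_S0 {D : Dm} (hD : D.Ok) {x1 x2 y1 y2 : ℤ} {e : Edg}
    (h1 : src e ∈ V2 D x1 x2 y1 y2) (h2 : tgt e ∈ V2 D x1 x2 y1 y2)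
    (h3 : ¬ (src e ∈ D.outer ∧ tgt e ∈ D.outer)) : dl.symm e ∈ S0 D := by
  obtain ⟨d1, d2, d3, d4, d5⟩ := hD
  obtain ⟨x, y, b⟩ := e
  rw [mem_S0]
  rw [mem_V2] at h1 h2
  have o1 : ∀ a b : ℤ, b = -1 → 0 ≤ a → a ≤ D.r → ((a, b) : Vtx) ∈ D.outer :=
    fun a b h1 h2 h3 => Or.inl ⟨h1, h2, h3⟩
  have o2 : ∀ a b : ℤ, a = D.r → -1 ≤ b → b ≤ D.h → ((a, b) : Vtx) ∈ D.outer :=
    fun a b h1 h2 h3 => Or.inr (Or.inl ⟨h1, h2, h3⟩)
  have o3 : ∀ a b : ℤ, b = D.h → D.t ≤ a → a ≤ D.r → ((a, b) : Vtx) ∈ D.outer :=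
    fun a b h1 h2 h3 => Or.inr (Or.inr ⟨h1, h2, h3⟩)
  cases b
  · simp only [src_mk, tgt_false] at h1 h2 h3
    rw [dls_f]
    have hxr : x ≠ D.r := by
      intro h4
      exact h3 ⟨o2 _ _ h4 (by omega) (by omega), o2 _ _ h4 (by omega) (by omega)⟩
    constructor
    · unfold Dm.edges
      rw [mem_RE_true]
      omega
    · rintro (⟨_, h5, h6, h7⟩ | ⟨h5, _⟩ | ⟨_, h5, h6, h7⟩)
      · simp only at h5 h6 h7
        omega
      · exact absurd h5 (by simp)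
      · simp only at h5 h6 h7
        omega
  · simp only [src_mk, tgt_true] at h1 h2 h3
    rw [dls_t]
    have hy1 : y ≠ -1 := by
      intro h4
      exact h3 ⟨o1 _ _ h4 (by omega) (by omega), o1 _ _ h4 (by omega) (by omega)⟩
    have hy2 : y ≠ D.h := by
      intro h4
      exact h3 ⟨o3 _ _ h4 (by omega) (by omega), o3 _ _ h4 (by omega) (by omega)⟩
    constructor
    · unfold Dm.edges
      rw [mem_RE_false]
      omega
    · rintro (⟨h5, _⟩ | ⟨_, h5, h6, h7⟩ | ⟨h5, _⟩)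
      · exact absurd h5 (by simp)
      · simp only at h5 h6 h7
        omega
      · exact absurd h5 (by simp)

theorem coe_S0 (D : Dm) (F : Finset Edg) :
    (↑D.edges \ D.cfg F : Set Edg) = ↑(S0 D \ F) := by
  ext e
  rw [Finset.coe_sdiff]
  constructor
  · rintro ⟨h1, h2⟩
    exact ⟨Finset.mem_coe.2 (mem_S0.2 ⟨Finset.mem_coe.1 h1, fun h => h2 (Or.inr h)⟩),
      fun h => h2 (Or.inl h)⟩
  · rintro ⟨h1, h2⟩
    obtain ⟨h3, h4⟩ := mem_S0.1 (Finset.mem_coe.1 h1)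
    refine ⟨Finset.mem_coe.2 h3, ?_⟩
    rintro (h | h)
    · exact h2 h
    · exact h4 h

theorem dreach_S0 (D : Dm) (F : Finset Edg) (g f : Vtx) :
    DReach (↑D.edges \ D.cfg F : Set Edg) g f ↔ Reach (↑(dmp (S0 D \ F)) : Set Edg) g f := by
  rw [coe_dmp, reach_dl, coe_S0]

theorem hitF_iff {D : Dm} (hD : D.Ok) (F : Finset Edg) {x1 x2 y1 y2 : ℤ}
    (hb : Bx D x1 x2 y1 y2) : HitF D x1 x2 y1 y2 F ↔
      H12S.Cn D.outer (J2 D x1 x2 y1 y2)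
        (↑(dmp (S0 D \ F) ∩ H973.ES (V2 D x1 x2 y1 y2)) : Set Edg) := by
  have hb' := hb
  have hD' := hD
  obtain ⟨b1, b2, b3, b4, b5, b6⟩ := hb
  obtain ⟨d1, d2, d3, d4, d5⟩ := hD
  constructor
  · rintro ⟨f, ⟨g, hg, hr⟩, hfb⟩
    rw [dreach_S0] at hr
    have hst : ∀ a b, a ∈ V2 D x1 x2 y1 y2 → ¬ a ∈ J2 D x1 x2 y1 y2 →
        Adj (↑(dmp (S0 D \ F)) : Set Edg) a b →
        Adj (↑(dmp (S0 D \ F) ∩ H973.ES (V2 D x1 x2 y1 y2)) : Set Edg) a b ∧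
          b ∈ V2 D x1 x2 y1 y2 := by
      rintro a b ha ha' ⟨e, he, hc⟩
      have hin := mem_dmp.1 (Finset.mem_coe.1 he)
      rw [Finset.mem_sdiff, mem_S0] at hin
      obtain ⟨⟨hin1, hin2⟩, _⟩ := hin
      have hbV : b ∈ V2 D x1 x2 y1 y2 := by
        have h1 : ¬ inR (x1 - 1) x2 (y1 - 1) y2 a := fun h2 => ha' ⟨ha, h2⟩
        rw [mem_V2] at ha ⊢
        obtain ⟨x, y, c⟩ := e
        obtain ⟨ax, ay⟩ := a
        obtain ⟨bx, by'⟩ := b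
        unfold inR at h1
        unfold Dm.edges at hin1
        cases c
        · rw [dls_f] at hin1 hin2
          rw [mem_RE_true] at hin1
          have w1 : ¬ (y + 1 = D.h ∧ D.l ≤ x ∧ x < D.t) := fun h => hin2 (Or.inl ⟨rfl, h⟩)
          have w2 : ¬ (y + 1 = 0 ∧ D.l ≤ x ∧ x < 0) := fun h =>
            hin2 (Or.inr (Or.inr ⟨rfl, h⟩))
          simp only [src_mk, tgt_false, Prod.mk.injEq] at hc h1 ha ⊢
          omega
        · rw [dls_t] at hin1 hin2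
          rw [mem_RE_false] at hin1
          have w1 : ¬ (x + 1 = D.l ∧ 0 ≤ y ∧ y < D.h) := fun h =>
            hin2 (Or.inr (Or.inl ⟨rfl, h⟩))
          simp only [src_mk, tgt_true, Prod.mk.injEq] at hc h1 ha ⊢
          omega
      refine ⟨⟨e, ?_, hc⟩, hbV⟩
      rw [Finset.coe_inter]
      refine ⟨he, ?_⟩
      rw [Finset.mem_coe, H973.mem_ES]
      rcases hc with ⟨h1, h2⟩ | ⟨h1, h2⟩
      · rw [h1, h2]; exact ⟨ha, hbV⟩
      · rw [h1, h2]; exact ⟨hbV, ha⟩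
    obtain ⟨w, hw1, hw2⟩ := first_hit' (I := fun a => a ∈ V2 D x1 x2 y1 y2)
      (P := fun a => a ∈ J2 D x1 x2 y1 y2) hst (outer_V2 hD' hb' hg) hr (fun h1 => ⟨h1, hfb⟩)
    exact ⟨g, hg, w, hw1, hw2⟩
  · rintro ⟨g, hg, v, hv, hr⟩
    refine ⟨v, ⟨g, hg, ?_⟩, hv.2⟩
    rw [dreach_S0]
    refine hr.mono ?_
    rw [Finset.coe_inter]
    exact Set.inter_subset_left

theorem cn_local {D : Dm} (hD : D.Ok) {x1 x2 y1 y2 : ℤ} {H : Finset Edg}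
    (hH : H ⊆ H973.ES (V2 D x1 x2 y1 y2)) :
    H12S.Cn D.outer (J2 D x1 x2 y1 y2) (↑H : Set Edg) ↔
      H12S.Cn D.outer (J2 D x1 x2 y1 y2)
        (↑(H ∩ (dmp (S0 D) ∩ H973.ES (V2 D x1 x2 y1 y2))) : Set Edg) := by
  constructor
  · rintro ⟨u, hu, v, hv, hr⟩
    have hr2 : Reach (↑H : Set Edg) v u := hr.symm
    have hst : ∀ a b, ¬ a ∈ D.outer → Adj (↑H : Set Edg) a b →
        Adj (↑(H ∩ (dmp (S0 D) ∩ H973.ES (V2 D x1 x2 y1 y2))) : Set Edg) a b := by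
      rintro a b ha ⟨e, he, hc⟩
      refine ⟨e, ?_, hc⟩
      have heV := hH (Finset.mem_coe.1 he)
      rw [Finset.mem_coe, Finset.mem_inter, Finset.mem_inter]
      refine ⟨Finset.mem_coe.1 he, ?_, heV⟩
      rw [H973.mem_ES] at heV
      rw [mem_dmp]
      refine dual_S0 hD heV.1 heV.2 ?_
      rintro ⟨h1, h2⟩
      rcases hc with ⟨h3, _⟩ | ⟨_, h3⟩
      · exact ha (h3 ▸ h1)
      · exact ha (h3 ▸ h2)
    obtain ⟨w, hw1, hw2⟩ := first_hit (P := fun a => a ∈ D.outer) hst hr2 hu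
    exact ⟨w, hw1, v, hv, Reach.symm hw2⟩
  · rintro ⟨u, hu, v, hv, hr⟩
    refine ⟨u, hu, v, hv, hr.mono ?_⟩
    rw [Finset.coe_inter]
    exact Set.inter_subset_left

theorem hitF_pr {D : Dm} (hD : D.Ok) {x1 x2 y1 y2 : ℤ} (hb : Bx D x1 x2 y1 y2) (q : ℝ) :
    Pr (fun _ => q) D.edges (HitF D x1 x2 y1 y2) =
      Pr (fun _ => 1 - q) (H973.ES (V2 D x1 x2 y1 y2))
        (fun F => H12S.Cn D.outer (J2 D x1 x2 y1 y2) ↑F) := by
  have hsub : S0 D ⊆ D.edges := fun e he => (mem_S0.1 he).1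
  have e1 : Pr (fun _ => q) D.edges (HitF D x1 x2 y1 y2) =
      Pr (fun _ => q) D.edges (fun F => H12S.Cn D.outer (J2 D x1 x2 y1 y2)
        (↑(dmp (S0 D \ F) ∩ H973.ES (V2 D x1 x2 y1 y2)) : Set Edg)) :=
    Pr_congr (fun F _ => hitF_iff hD F hb)
  have e2 : Pr (fun _ => q) D.edges (fun F => H12S.Cn D.outer (J2 D x1 x2 y1 y2)
        (↑(dmp (S0 D \ F) ∩ H973.ES (V2 D x1 x2 y1 y2)) : Set Edg)) =
      Pr (fun _ => q) (S0 D) (fun F => H12S.Cn D.outer (J2 D x1 x2 y1 y2)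
        (↑(dmp (S0 D \ F) ∩ H973.ES (V2 D x1 x2 y1 y2)) : Set Edg)) := by
    refine Pr_local hsub ?_
    intro F _
    rw [show S0 D \ (F ∩ S0 D) = S0 D \ F by
      ext e; simp only [Finset.mem_sdiff, Finset.mem_inter]; tauto]
  have e3 := Pr_compl (fun _ : Edg => q) (S0 D) (fun F => H12S.Cn D.outer (J2 D x1 x2 y1 y2)
        (↑(dmp F ∩ H973.ES (V2 D x1 x2 y1 y2)) : Set Edg))
  have e4 := pr_dmp (1 - q) (S0 D) (fun H => H12S.Cn D.outer (J2 D x1 x2 y1 y2)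
        (↑(H ∩ H973.ES (V2 D x1 x2 y1 y2)) : Set Edg))
  have e5 : Pr (fun _ => 1 - q) (dmp (S0 D)) (fun H => H12S.Cn D.outer (J2 D x1 x2 y1 y2)
        (↑(H ∩ H973.ES (V2 D x1 x2 y1 y2)) : Set Edg)) =
      Pr (fun _ => 1 - q) (dmp (S0 D) ∩ H973.ES (V2 D x1 x2 y1 y2))
        (fun H => H12S.Cn D.outer (J2 D x1 x2 y1 y2) (↑H : Set Edg)) := by
    rw [Pr_local (S' := dmp (S0 D) ∩ H973.ES (V2 D x1 x2 y1 y2)) Finset.inter_subset_left]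
    · apply Pr_congr
      intro H hH
      rw [Finset.inter_eq_left.mpr (hH.trans Finset.inter_subset_right)]
    · intro H hH
      rw [show H ∩ (dmp (S0 D) ∩ H973.ES (V2 D x1 x2 y1 y2)) ∩ H973.ES (V2 D x1 x2 y1 y2) =
        H ∩ H973.ES (V2 D x1 x2 y1 y2) by
          ext e
          simp only [Finset.mem_inter]
          constructor
          · rintro ⟨⟨a, _, b⟩, c⟩; exact ⟨a, b⟩
          · rintro ⟨a, b⟩; exact ⟨⟨a, hH a, b⟩, b⟩]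
  have e6 : Pr (fun _ => 1 - q) (H973.ES (V2 D x1 x2 y1 y2))
        (fun H => H12S.Cn D.outer (J2 D x1 x2 y1 y2) (↑H : Set Edg)) =
      Pr (fun _ => 1 - q) (dmp (S0 D) ∩ H973.ES (V2 D x1 x2 y1 y2))
        (fun H => H12S.Cn D.outer (J2 D x1 x2 y1 y2) (↑H : Set Edg)) :=
    Pr_local Finset.inter_subset_right (fun H hH => cn_local hD hH)
  rw [e1, e2, ← e3, ← e4, e5, e6]

end Pool.Agent.Zk60.NW
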