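import Pool.Agent.Zk60.NW.Fin

/-!
The self-dual random-cluster (FK) law in a lattice rectangle with the Dobrushin boundary condition
(definitions and the statement for `Zk<N>/FK.lean`).
-/

set_option autoImplicit false

namespace Pool.Agent.Zk60.NW

open H974 H984N Finset

open Classical in
/-- The number of the clusters of the vertices of the rectangle, when the edges of `F` and the wired
arc are open. -/
noncomputable def nclu (D : Dm) (F : Finset Edg) : ℕ :=
  ((Icc D.l D.r ×ˢ Icc 0 D.h).image fun v : Vtx =>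
    (Icc D.l D.r ×ˢ Icc 0 D.h).filter fun u : Vtx => Reach (D.cfg F) v u).card

/-- The weight `(√q)^(number of open edges) q^(number of clusters)`: the random-cluster weight at the
self-dual point `p = √q / (1 + √q)`, up to a factor. -/
noncomputable def fkw (D : Dm) (q : ℝ) (F : Finset Edg) : ℝ :=
  Real.sqrt q ^ F.card * q ^ nclu D F

/-- The self-dual random-cluster law. -/
noncomputable def fk (D : Dm) (q : ℝ) (F : Finset Edg) : ℝ :=
  fkw D q F / ∑ F' ∈ D.edges.powerset, fkw D q F'

/-- statement 1: a new edge merges at most two clusters -/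
def S_FK1 : Prop := ∀ (D : Dm), D.Ok → ∀ e ∈ D.edges, ∀ F : Finset Edg, F ⊆ D.edges →
  nclu D (insert e F) = nclu D F ∨ nclu D (insert e F) + 1 = nclu D F

/-- statement 2: the conditional probabilities -/
def S_FK2 : Prop := ∀ (D : Dm), D.Ok → ∀ q : ℝ, 0 < q →
  (∀ F ⊆ D.edges, 0 ≤ fk D q F) ∧ ∑ F ∈ D.edges.powerset, fk D q F = 1 ∧
  ∀ e ∈ D.edges, ∀ F ⊆ D.edges, e ∉ F →
    (1 / 2 - |Real.sqrt q - 1| / (2 * (1 + Real.sqrt q))) * (fk D q (insert e F) + fk D q F) ≤
        fk D q (insert e F) ∧
      fk D q (insert e F) ≤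
        (1 / 2 + |Real.sqrt q - 1| / (2 * (1 + Real.sqrt q))) * (fk D q (insert e F) + fk D q F)

end Pool.Agent.Zk60.NW
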