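import Pool.Agent.Zk60.NW.FKD
import Pool.Agent.Zk9.FK0

/-!
The self-dual random-cluster law: the conditional probabilities (after `Zk9/FK.lean` by helper9,
without the hypothesis `Ok`).
-/

set_option autoImplicit false
set_option linter.all false

namespace Pool.Agent.Zk60.NW

open H974 H984N Finset

theorem cfg_insert' (D : Dm) (e : Edg) (F : Finset Edg) :
    D.cfg (insert e F) = insert e (D.cfg F) := by
  rw [Dm.cfg, Dm.cfg, Finset.coe_insert, Set.insert_union]

theorem ends_mem' (D : Dm) {e : Edg} (he : e ∈ D.edges) :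
    src e ∈ Icc D.l D.r ×ˢ Icc 0 D.h ∧ tgt e ∈ Icc D.l D.r ×ˢ Icc 0 D.h := by
  obtain ⟨x, y, b⟩ := e
  cases b
  · have h := he
    simp only [Dm.edges, RE, Finset.mem_filter, Finset.mem_product, Finset.mem_Icc,
      Finset.mem_univ, and_true, Bool.false_eq_true, if_false] at h
    simp only [src_mk, tgt_false, Finset.mem_product, Finset.mem_Icc]
    omega
  · have h := he
    simp only [Dm.edges, RE, Finset.mem_filter, Finset.mem_product, Finset.mem_Icc,
      Finset.mem_univ, and_true, if_true] at h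
    simp only [src_mk, tgt_true, Finset.mem_product, Finset.mem_Icc]
    omega

/-- statement 1 -/
theorem fk_one (D : Dm) (e : Edg) (he : e ∈ D.edges) (F : Finset Edg) :
    nclu D (insert e F) = nclu D F ∨ nclu D (insert e F) + 1 = nclu D F := by
  obtain ⟨h1, h2⟩ := ends_mem' D he
  classical
  unfold nclu
  exact card_classes (Icc D.l D.r ×ˢ Icc 0 D.h) (Reach (D.cfg F)) (Reach (D.cfg (insert e F)))
    (Reach.refl _) (fun _ _ h => h.symm) (fun _ _ _ h h' => h.trans h') h1 h2 (fun v u => by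
      rw [cfg_insert']
      exact reach_insert _ _ _ _)

/-- statement 2 -/
theorem fk_near (D : Dm) (q : ℝ) (hq : 0 < q) :
    (∀ F ⊆ D.edges, 0 ≤ fk D q F) ∧ ∑ F ∈ D.edges.powerset, fk D q F = 1 ∧
    ∀ e ∈ D.edges, ∀ F ⊆ D.edges, e ∉ F →
      (1 / 2 - |Real.sqrt q - 1| / (2 * (1 + Real.sqrt q))) * (fk D q (insert e F) + fk D q F) ≤
          fk D q (insert e F) ∧
        fk D q (insert e F) ≤
          (1 / 2 + |Real.sqrt q - 1| / (2 * (1 + Real.sqrt q))) *
            (fk D q (insert e F) + fk D q F) := by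
  have hs : 0 < Real.sqrt q := Real.sqrt_pos.2 hq
  have hqs : q = Real.sqrt q * Real.sqrt q := (Real.mul_self_sqrt hq.le).symm
  have hpos : ∀ F, 0 < fkw D q F := fun F => by
    unfold fkw
    positivity
  have hZ : 0 < ∑ F' ∈ D.edges.powerset, fkw D q F' :=
    Finset.sum_pos (fun F _ => hpos F) ⟨∅, Finset.empty_mem_powerset _⟩
  refine ⟨fun F _ => ?_, ?_, ?_⟩
  · exact div_nonneg (hpos F).le hZ.le
  · unfold fk
    rw [← Finset.sum_div, div_self hZ.ne']
  · intro e he F hF heF
    set s := Real.sqrt q with hsdef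
    have hcase : fkw D q (insert e F) = s * fkw D q F ∨ fkw D q F = s * fkw D q (insert e F) := by
      unfold fkw
      rw [Finset.card_insert_of_notMem heF, ← hsdef]
      rcases fk_one D e he F with h | h
      · left
        rw [h, pow_succ]; ring
      · right
        rw [← h, pow_succ, pow_succ]
        nth_rewrite 2 [hqs]
        ring
    set Z := ∑ F' ∈ D.edges.powerset, fkw D q F' with hZdef
    have key : ∀ x y : ℝ, 0 < x → 0 < y → (y = s * x ∨ x = s * y) →
        (1 / 2 - |s - 1| / (2 * (1 + s))) * (y / Z + x / Z) ≤ y / Z ∧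
          y / Z ≤ (1 / 2 + |s - 1| / (2 * (1 + s))) * (y / Z + x / Z) := by
      intro x y hx hy hxy
      have h1s : 0 < 1 + s := by linarith
      have e1 : (1 / 2 - |s - 1| / (2 * (1 + s))) * (y / Z + x / Z) =
          ((1 + s) - |s - 1|) / (2 * (1 + s)) * (y + x) / Z := by
        field_simp
      have e2 : (1 / 2 + |s - 1| / (2 * (1 + s))) * (y / Z + x / Z) =
          ((1 + s) + |s - 1|) / (2 * (1 + s)) * (y + x) / Z := by
        field_simp
      rw [e1, e2]
      have g1 : ((1 + s) - |s - 1|) / (2 * (1 + s)) * (y + x) ≤ y := by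
        rw [div_mul_eq_mul_div, div_le_iff₀ (by positivity)]
        rcases hxy with rfl | rfl
        · rcases abs_cases (s - 1) with ⟨h, h'⟩ | ⟨h, h'⟩ <;> rw [h] <;> nlinarith [mul_pos hs hx, mul_pos h1s hx]
        · rcases abs_cases (s - 1) with ⟨h, h'⟩ | ⟨h, h'⟩ <;> rw [h] <;> nlinarith [mul_pos hs hy, mul_pos h1s hy]
      have g2 : y ≤ ((1 + s) + |s - 1|) / (2 * (1 + s)) * (y + x) := by
        rw [div_mul_eq_mul_div, le_div_iff₀ (by positivity)]
        rcases hxy with rfl | rfl
        · rcases abs_cases (s - 1) with ⟨h, h'⟩ | ⟨h, h'⟩ <;> rw [h] <;> nlinarith [mul_pos hs hx, mul_pos h1s hx]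
        · rcases abs_cases (s - 1) with ⟨h, h'⟩ | ⟨h, h'⟩ <;> rw [h] <;> nlinarith [mul_pos hs hy, mul_pos h1s hy]
      exact ⟨div_le_div_of_nonneg_right g1 hZ.le, div_le_div_of_nonneg_right g2 hZ.le⟩
    exact key _ _ (hpos F) (hpos _) hcase

end Pool.Agent.Zk60.NW
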