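import Pool.Agent.Zk60.NW.Quant2
import Pool.Agent.Zk78.Wk

/-!
Coupling of the exploration paths, and the limits of the laws of the traces.
-/

set_option autoImplicit false

namespace Pool.Agent.Zk60.NW

open H974 Finset H342P H984P H984N MeasureTheory TopologicalSpace Filter Topology

/-- The coupling. -/
theorem main_coupling (R : Rect) : ∃ C δ0 : ℝ, 0 < C ∧ 0 < δ0 ∧ δ0 ≤ 1 ∧
    ∀ δ : ℝ, 0 < δ → δ ≤ δ0 → ∀ ε : ℝ, 0 ≤ ε → ε ≤ 1/2 → ∀ w : Finset Edg → ℝ,
    Near ε (R.dm δ).edges w → ∑ F ∈ (R.dm δ).edges.powerset, w F = 1 →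
    ∃ c : Finset Edg → Finset Edg → ℝ, (∀ F F', 0 ≤ c F F') ∧
      (∀ F ∈ (R.dm δ).edges.powerset, ∑ F' ∈ (R.dm δ).edges.powerset, c F F' = w F) ∧
      (∀ F' ∈ (R.dm δ).edges.powerset, ∑ F ∈ (R.dm δ).edges.powerset, c F F' =
        (1/2) ^ (R.dm δ).edges.card) ∧
      ∀ ρ : ℝ, 0 < ρ → ρ ≤ 1 →
        ∑ F ∈ (R.dm δ).edges.powerset, ∑ F' ∈ (R.dm δ).edges.powerset,
          c F F' * ind (ρ < hd R δ F F') ≤ C * (ε * δ ^ (-(3/4 : ℝ))) / ρ ^ 2 := by
  obtain ⟨C, δ0, hC, hδ0, hδ01, h⟩ := hd_bound R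
  refine ⟨C, δ0, hC, hδ0, hδ01, ?_⟩
  intro δ hδ hδle ε h0 h1 w hw hs
  obtain ⟨c, hc0, hc1, hc2, hc3⟩ := coupling h0 h1 (R.dm δ).edges w hw hs
  exact ⟨c, hc0, hc1, hc2, fun ρ hρ hρ1 => h δ hδ hδle ε h0 h1 c ⟨hc0, hc3⟩ ρ hρ hρ1⟩

/-- The trace of the exploration path. -/
noncomputable def trace (R : Rect) (δ : ℝ) (F : Finset Edg) : NonemptyCompacts ℂ :=
  ⟨⟨Set.range (R.curve δ F), isCompact_range (R.curve δ F).continuous⟩, Set.range_nonempty _⟩

theorem dist_trace (R : Rect) (δ : ℝ) (F F' : Finset Edg) :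
    dist (trace R δ F) (trace R δ F') = hd R δ F F' := rfl

noncomputable instance instMNC : MeasurableSpace (NonemptyCompacts ℂ) := borel _
instance instBNC : BorelSpace (NonemptyCompacts ℂ) := ⟨rfl⟩

/-- The law of the trace when the set of open edges has the law `w`. -/
noncomputable def lawM (R : Rect) (δ : ℝ) (w : Finset Edg → ℝ) : Measure (NonemptyCompacts ℂ) :=
  ∑ F ∈ (R.dm δ).edges.powerset, ENNReal.ofReal (w F) • Measure.dirac (trace R δ F)

theorem lawM_univ (R : Rect) (δ : ℝ) {w : Finset Edg → ℝ}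
    (h0 : ∀ F ∈ (R.dm δ).edges.powerset, 0 ≤ w F)
    (h1 : ∑ F ∈ (R.dm δ).edges.powerset, w F = 1) : lawM R δ w Set.univ = 1 := by
  unfold lawM
  rw [Measure.finsetSum_apply]
  simp only [Measure.smul_apply, measure_univ, smul_eq_mul, mul_one]
  rw [← ENNReal.ofReal_sum_of_nonneg h0, h1, ENNReal.ofReal_one]

theorem lawM_integral (R : Rect) (δ : ℝ) {w : Finset Edg → ℝ}
    (h0 : ∀ F ∈ (R.dm δ).edges.powerset, 0 ≤ w F) (G : NonemptyCompacts ℂ → ℝ)
    (hG : Continuous G) :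
    ∫ x, G x ∂(lawM R δ w) = ∑ F ∈ (R.dm δ).edges.powerset, w F * G (trace R δ F) := by
  unfold lawM
  rw [integral_finsetSum_measure]
  · refine Finset.sum_congr rfl fun F hF => ?_
    rw [integral_smul_measure, integral_dirac' _ _ hG.stronglyMeasurable,
      ENNReal.toReal_ofReal (h0 F hF), smul_eq_mul]
  · intro F _
    refine Integrable.smul_measure ?_ ENNReal.ofReal_ne_top
    exact integrable_dirac' hG.stronglyMeasurable (by simp)

/-- `w` is a probability on the subsets of the set of edges. -/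
structure IsP (R : Rect) (δ : ℝ) (w : Finset Edg → ℝ) : Prop where
  nonneg : ∀ F ∈ (R.dm δ).edges.powerset, 0 ≤ w F
  total : ∑ F ∈ (R.dm δ).edges.powerset, w F = 1

/-- The law of the trace as a probability measure. -/
noncomputable def lawP (R : Rect) (δ : ℝ) (w : Finset Edg → ℝ) (h : IsP R δ w) :
    ProbabilityMeasure (NonemptyCompacts ℂ) := ⟨lawM R δ w, ⟨lawM_univ R δ h.nonneg h.total⟩⟩

/-- The critical weights. -/
noncomputable def half (R : Rect) (δ : ℝ) (_ : Finset Edg) : ℝ := (1/2) ^ (R.dm δ).edges.card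

theorem half_isP (R : Rect) (δ : ℝ) : IsP R δ (half R δ) := by
  refine ⟨fun F _ => by unfold half; positivity, ?_⟩
  unfold half
  rw [Finset.sum_const, Finset.card_powerset, nsmul_eq_mul]
  push_cast
  rw [← mul_pow]
  norm_num

/-- The limits of the laws of the traces in the window. -/
theorem limits (R : Rect) (δ ε : ℕ → ℝ) (w : ℕ → Finset Edg → ℝ) (hδ0 : ∀ n, 0 < δ n)
    (hδ : Tendsto δ atTop (𝓝 0)) (hε0 : ∀ n, 0 ≤ ε n)
    (hε : Tendsto (fun n => ε n * δ n ^ (-(3/4 : ℝ))) atTop (𝓝 0))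
    (hw : ∀ n, Near (ε n) (R.dm (δ n)).edges (w n)) (hp : ∀ n, IsP R (δ n) (w n))
    (P : ProbabilityMeasure (NonemptyCompacts ℂ)) :
    Tendsto (fun n => lawP R (δ n) (w n) (hp n)) atTop (𝓝 P) ↔
      Tendsto (fun n => lawP R (δ n) (half R (δ n)) (half_isP R (δ n))) atTop (𝓝 P) := by
  obtain ⟨C, δ0, hC, hδ0', hδ01, hmain⟩ := main_coupling R
  have hex : ∀ n, ∃ c : Finset Edg → Finset Edg → ℝ, (∀ F F', 0 ≤ c F F') ∧
      (∀ F ∈ (R.dm (δ n)).edges.powerset, ∑ F' ∈ (R.dm (δ n)).edges.powerset, c F F' = w n F) ∧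
      (∀ F' ∈ (R.dm (δ n)).edges.powerset, ∑ F ∈ (R.dm (δ n)).edges.powerset, c F F' =
        (1/2) ^ (R.dm (δ n)).edges.card) ∧
      (δ n ≤ δ0 → ε n ≤ 1/2 → ∀ ρ : ℝ, 0 < ρ → ρ ≤ 1 →
        ∑ F ∈ (R.dm (δ n)).edges.powerset, ∑ F' ∈ (R.dm (δ n)).edges.powerset,
          c F F' * ind (ρ < hd R (δ n) F F') ≤
            C * (ε n * δ n ^ (-(3/4 : ℝ))) / ρ ^ 2) := by
    intro n
    by_cases hn : δ n ≤ δ0 ∧ ε n ≤ 1/2
    · obtain ⟨c, h1, h2, h3, h4⟩ := hmain (δ n) (hδ0 n) hn.1 (ε n) (hε0 n) hn.2 (w n) (hw n)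
        (hp n).total
      exact ⟨c, h1, h2, h3, fun _ _ => h4⟩
    · classical
      refine ⟨fun F F' => if F ∈ (R.dm (δ n)).edges.powerset then
        w n F * (1/2) ^ (R.dm (δ n)).edges.card else 0, ?_, ?_, ?_,
        fun h1 h2 => absurd ⟨h1, h2⟩ hn⟩
      · intro F F'
        show 0 ≤ (if F ∈ (R.dm (δ n)).edges.powerset then
          w n F * (1/2) ^ (R.dm (δ n)).edges.card else 0)
        split_ifs with h
        · exact mul_nonneg ((hp n).nonneg F h) (by positivity)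
        · exact le_rfl
      · intro F hF
        simp only [if_pos hF]
        rw [Finset.sum_const, Finset.card_powerset, nsmul_eq_mul]
        push_cast
        rw [mul_left_comm, ← mul_pow]
        norm_num
      · intro F' _
        have e1 : ∀ F ∈ (R.dm (δ n)).edges.powerset,
            (if F ∈ (R.dm (δ n)).edges.powerset then
              w n F * (1/2) ^ (R.dm (δ n)).edges.card else 0) =
            w n F * (1/2) ^ (R.dm (δ n)).edges.card := fun F hF => if_pos hF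
        rw [Finset.sum_congr rfl e1, ← Finset.sum_mul, (hp n).total, one_mul]
  choose c hc0 hc1 hc2 hc3 using hex
  refine weak_of_coupling (fun n => lawP R (δ n) (w n) (hp n))
    (fun n => lawP R (δ n) (half R (δ n)) (half_isP R (δ n)))
    (fun n => (R.dm (δ n)).edges.powerset) c (fun n => trace R (δ n)) hc0 ?_ ?_ ?_ ?_ P
  · intro n
    rw [Finset.sum_congr rfl (fun F hF => hc1 n F hF)]
    exact (hp n).total
  · intro n G hG _
    show ∫ x, G x ∂(lawM R (δ n) (w n)) = _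
    rw [lawM_integral R (δ n) (hp n).nonneg G hG]
    refine Finset.sum_congr rfl fun F hF => ?_
    rw [← hc1 n F hF, Finset.sum_mul]
  · intro n G hG _
    show ∫ x, G x ∂(lawM R (δ n) (half R (δ n))) = _
    rw [lawM_integral R (δ n) (half_isP R (δ n)).nonneg G hG, Finset.sum_comm]
    refine Finset.sum_congr rfl fun F' hF' => ?_
    rw [← Finset.sum_mul, hc2 n F' hF']
    rfl
  · intro ρ hρ
    have hmin : 0 < min ρ 1 := lt_min hρ one_pos
    have hlim : Tendsto (fun n => C * (ε n * δ n ^ (-(3/4 : ℝ))) / (min ρ 1) ^ 2) atTop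
        (𝓝 0) := by
      have := (hε.const_mul C).div_const ((min ρ 1) ^ 2)
      rw [mul_zero, zero_div] at this
      exact this
    have hev1 : ∀ᶠ n in atTop, δ n ≤ δ0 := (hδ.eventually_lt_const hδ0').mono fun n h => h.le
    have hev2 : ∀ᶠ n in atTop, ε n * δ n ^ (-(3/4 : ℝ)) < 1/2 :=
      hε.eventually_lt_const (by norm_num)
    refine squeeze_zero' (Eventually.of_forall fun n => Finset.sum_nonneg fun F _ =>
      Finset.sum_nonneg fun F' _ => mul_nonneg (hc0 n F F') (ind_nonneg _)) ?_ hlim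
    filter_upwards [hev1, hev2] with n h1 h2
    have h3 : ε n ≤ 1/2 := by
      have h4 : 1 ≤ δ n ^ (-(3/4 : ℝ)) :=
        Real.one_le_rpow_of_pos_of_le_one_of_nonpos (hδ0 n) (h1.trans hδ01) (by norm_num)
      nlinarith [hε0 n]
    refine le_trans ?_ (hc3 n h1 h3 (min ρ 1) hmin (min_le_right _ _))
    refine Finset.sum_le_sum fun F _ => Finset.sum_le_sum fun F' _ => ?_
    refine mul_le_mul_of_nonneg_left (ind_mono fun h => ?_) (hc0 n F F')
    rw [dist_trace] at h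
    exact lt_of_le_of_lt (min_le_left _ _) h

end Pool.Agent.Zk60.NW
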