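import Pool.Agent.TH992.T.Vis

/-!
A box of the lattice rectangle is visited by the exploration path if and only if the cluster of
the wired arc and the dual cluster of the complementary arc reach it.
-/

set_option autoImplicit false

namespace Pool.Agent.Zk60.NW

open H974 Finset H342P H984P H984N

/-- The box is in the rectangle and has at least two columns and two rows. -/
structure Bx (D : Dm) (x1 x2 y1 y2 : ℤ) : Prop where
  a : D.l ≤ x1
  b : x1 < x2
  c : x2 ≤ D.r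
  d : 0 ≤ y1
  e : y1 < y2
  f : y2 ≤ D.h

theorem first_hit {α : Type*} {r r' : α → α → Prop} {P : α → Prop}
    (h : ∀ a b, ¬ P a → r a b → r' a b) {u v : α} (huv : Relation.ReflTransGen r u v)
    (hv : P v) : ∃ w, P w ∧ Relation.ReflTransGen r' u w := by
  have key : (∃ w, P w ∧ Relation.ReflTransGen r' u w) ∨ Relation.ReflTransGen r' u v := by
    clear hv
    induction huv with
    | refl => exact Or.inr Relation.ReflTransGen.refl
    | @tail b c _ hs ih =>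
      rcases ih with ih | ih
      · exact Or.inl ih
      · by_cases hb : P b
        · exact Or.inl ⟨b, hb, ih⟩
        · exact Or.inr (ih.tail (h _ _ hb hs))
  rcases key with h1 | h1
  · exact h1
  · exact ⟨v, hv, h1⟩

theorem box_h {x1 x2 y1 y2 y : ℤ} (h1 : y1 ≤ y) (h2 : y ≤ y2) : ∀ n : ℕ, x1 + n ≤ x2 →
    Reach (↑(RE x1 x2 y1 y2) : Set Edg) (x1, y) (x1 + n, y)
  | 0, _ => by
    simp only [Nat.cast_zero, add_zero]
    exact Reach.refl _ _
  | n + 1, h => by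
    push_cast at h
    refine (box_h h1 h2 n (by omega)).trans (Adj.reach ⟨(x1 + (n : ℤ), y, true), ?_, ?_⟩)
    · rw [Finset.mem_coe, mem_RE_true]
      omega
    · left
      simp only [src_mk, tgt_true, Prod.mk.injEq, and_true, true_and]
      push_cast
      omega

theorem box_v {x1 x2 y1 y2 : ℤ} (h1 : x1 ≤ x2) : ∀ n : ℕ, y1 + n ≤ y2 →
    Reach (↑(RE x1 x2 y1 y2) : Set Edg) (x1, y1) (x1, y1 + n)
  | 0, _ => by
    simp only [Nat.cast_zero, add_zero]
    exact Reach.refl _ _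
  | n + 1, h => by
    push_cast at h
    refine (box_v h1 n (by omega)).trans (Adj.reach ⟨(x1, y1 + (n : ℤ), false), ?_, ?_⟩)
    · rw [Finset.mem_coe, mem_RE_false]
      omega
    · left
      simp only [src_mk, tgt_false, Prod.mk.injEq, true_and]
      push_cast
      omega

/-- Boxes are connected. -/
theorem box_conn {x1 x2 y1 y2 : ℤ} {u v : Vtx} (hu : inR x1 x2 y1 y2 u)
    (hv : inR x1 x2 y1 y2 v) : Reach (↑(RE x1 x2 y1 y2) : Set Edg) u v := by
  have key : ∀ w : Vtx, inR x1 x2 y1 y2 w →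
      Reach (↑(RE x1 x2 y1 y2) : Set Edg) (x1, y1) w := by
    rintro ⟨x, y⟩ hw
    unfold inR at hw
    simp only at hw
    have e1 := box_v (x1 := x1) (x2 := x2) (y1 := y1) (y2 := y2) (by omega) (y - y1).toNat
      (by omega)
    have e2 := box_h (x1 := x1) (x2 := x2) (y1 := y1) (y2 := y2) (y := y) (by omega) (by omega)
      (x - x1).toNat (by omega)
    have f1 : y1 + (((y - y1).toNat : ℕ) : ℤ) = y := by omega
    have f2 : x1 + (((x - x1).toNat : ℕ) : ℤ) = x := by omega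
    rw [f1] at e1
    rw [f2] at e2
    exact e1.trans e2
  exact (key u hu).symm.trans (key v hv)

/-- If the path does not visit the box then it does not depend on the edges of the box. -/
theorem not_vis {D : Dm} (hD : D.Ok) {F F' : Finset Edg} (hF : F ⊆ D.edges)
    {x1 x2 y1 y2 : ℤ} (h : ∀ k ≤ D.len F, ¬ inR x1 x2 y1 y2 (D.walk F k).1)
    (hd : ∀ e, e ∉ RE x1 x2 y1 y2 → (e ∈ F ↔ e ∈ F')) {σ : St} (hσ : D.Vis F' σ) :
    ¬ inR x1 x2 y1 y2 σ.1 := by
  have hw : ∀ k ≤ D.len F, D.walk F' k = D.walk F k := by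
    intro k hk
    refine orb_congr (T := D.len F) ?_ hk
    intro e he
    obtain ⟨s, hs, rfl⟩ := mem_Exm.1 he
    have h1 : ae (D.walk F s) ∉ RE x1 x2 y1 y2 := by
      intro hc
      apply h s hs.le
      have h2 := p2_ends (D.walk F s)
      generalize ae (D.walk F s) = g at hc h2
      obtain ⟨x, y, b⟩ := g
      unfold inR
      cases b
      · rw [mem_RE_false] at hc
        simp only [src_mk, tgt_false] at h2
        rcases h2 with ⟨h3, _⟩ | ⟨_, h3⟩
        · rw [← h3]; simp only; omega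
        · rw [← h3]; simp only; omega
      · rw [mem_RE_true] at hc
        simp only [src_mk, tgt_true] at h2
        rcases h2 with ⟨h3, _⟩ | ⟨_, h3⟩
        · rw [← h3]; simp only; omega
        · rw [← h3]; simp only; omega
    have h2 := hd _ h1
    unfold Dm.cfg
    constructor
    · rintro (h3 | h3)
      · exact Or.inl (Finset.mem_coe.2 (h2.1 (Finset.mem_coe.1 h3)))
      · exact Or.inr h3
    · rintro (h3 | h3)
      · exact Or.inl (Finset.mem_coe.2 (h2.2 (Finset.mem_coe.1 h3)))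
      · exact Or.inr h3
  have hl : D.len F' ≤ D.len F := by
    apply Nat.sInf_le
    show D.walk F' (D.len F) = Dm.stop
    rw [hw _ le_rfl]
    exact walk_len hD hF
  obtain ⟨k, hk, rfl⟩ := hσ
  rw [hw k (hk.trans hl)]
  exact h k (hk.trans hl)

theorem corner_of_edge (e : Edg) {w f : Vtx} (hw : w = src e ∨ w = tgt e)
    (hf : f = dsrc e ∨ f = dtgt e) : ∃ q : Q4, face (w, q) = f := by
  obtain ⟨x, y, b⟩ := e
  cases b
  · simp only [src_mk, tgt_false, dsrc_false, dtgt_mk] at hw hf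
    rcases hw with rfl | rfl <;> rcases hf with rfl | rfl
    · exact ⟨.nw, rfl⟩
    · exact ⟨.ne, rfl⟩
    · exact ⟨.sw, by simp⟩
    · exact ⟨.se, by simp⟩
  · simp only [src_mk, tgt_true, dsrc_true, dtgt_mk] at hw hf
    rcases hw with rfl | rfl <;> rcases hf with rfl | rfl
    · exact ⟨.se, rfl⟩
    · exact ⟨.ne, rfl⟩
    · exact ⟨.sw, by simp⟩
    · exact ⟨.nw, by simp⟩

theorem corner_of_face {x1 x2 y1 y2 : ℤ} (hx : x1 ≤ x2) (hy : y1 ≤ y2) {f : Vtx}
    (hf : inR (x1 - 1) x2 (y1 - 1) y2 f) : ∃ σ : St, inR x1 x2 y1 y2 σ.1 ∧ face σ = f := by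
  obtain ⟨a, b⟩ := f
  unfold inR at hf ⊢
  simp only at hf
  by_cases h1 : x1 ≤ a <;> by_cases h2 : y1 ≤ b
  · exact ⟨((a, b), .ne), by simp only; omega, rfl⟩
  · exact ⟨((a, b + 1), .se), by simp only; omega, by simp⟩
  · exact ⟨((a + 1, b), .nw), by simp only; omega, by simp⟩
  · exact ⟨((a + 1, b + 1), .sw), by simp only; omega, by simp⟩

theorem face_near (σ : St) {x1 x2 y1 y2 : ℤ} (h : inR x1 x2 y1 y2 σ.1) :
    inR (x1 - 1) x2 (y1 - 1) y2 (face σ) := by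
  obtain ⟨⟨x, y⟩, q⟩ := σ
  unfold inR at h ⊢
  cases q <;> simp only [face_ne, face_nw, face_sw, face_se] at h ⊢ <;> omega

theorem dface_of_RE {x1 x2 y1 y2 : ℤ} {e : Edg} (he : e ∈ RE x1 x2 y1 y2) :
    inR (x1 - 1) x2 (y1 - 1) y2 (dsrc e) ∧ inR (x1 - 1) x2 (y1 - 1) y2 (dtgt e) := by
  obtain ⟨x, y, b⟩ := e
  unfold inR
  cases b
  · rw [mem_RE_false] at he
    simp only [dsrc_false, dtgt_mk]
    omega
  · rw [mem_RE_true] at he
    simp only [dsrc_true, dtgt_mk]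
    omega

theorem vert_of_RE {x1 x2 y1 y2 : ℤ} {e : Edg} (he : e ∈ RE x1 x2 y1 y2) :
    inR x1 x2 y1 y2 (src e) ∧ inR x1 x2 y1 y2 (tgt e) := by
  obtain ⟨x, y, b⟩ := e
  unfold inR
  cases b
  · rw [mem_RE_false] at he
    simp only [src_mk, tgt_false]
    omega
  · rw [mem_RE_true] at he
    simp only [src_mk, tgt_true]
    omega

theorem RE_sub {D : Dm} {x1 x2 y1 y2 : ℤ} (hb : Bx D x1 x2 y1 y2) :
    RE x1 x2 y1 y2 ⊆ D.edges := by
  obtain ⟨b1, b2, b3, b4, b5, b6⟩ := hb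
  intro e he
  obtain ⟨x, y, b⟩ := e
  unfold Dm.edges
  cases b
  · rw [mem_RE_false] at he ⊢
    omega
  · rw [mem_RE_true] at he ⊢
    omega

/-- A boundary edge of the complementary arc in the box. -/
theorem edge_or {D : Dm} (hD : D.Ok) {x1 x2 y1 y2 : ℤ} (hb : Bx D x1 x2 y1 y2)
    (h0 : ¬ inR x1 x2 y1 y2 (0, 0)) (h1 : ¬ inR x1 x2 y1 y2 (D.t, D.h)) {g : Vtx}
    (hg : g ∈ D.outer) (hgb : inR (x1 - 1) x2 (y1 - 1) y2 g) :
    ∃ e ∈ RE x1 x2 y1 y2, e ∉ D.wir ∧ ∃ g' ∈ D.outer, ∃ f : Vtx, ¬ TH992.T.Out D f ∧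
      ((dsrc e = g' ∧ dtgt e = f) ∨ (dsrc e = f ∧ dtgt e = g')) := by
  obtain ⟨b1, b2, b3, b4, b5, b6⟩ := hb
  obtain ⟨d1, d2, d3, d4, d5⟩ := hD
  obtain ⟨gx, gy⟩ := g
  unfold inR at h0 h1 hgb
  unfold Dm.outer at hg
  simp only [Set.mem_ofPred_eq] at hg h0 h1 hgb
  rcases hg with ⟨rfl, g1, g2⟩ | ⟨rfl, g1, g2⟩ | ⟨rfl, g1, g2⟩
  · refine ⟨(x1, 0, true), ?_, ?_, (x1, -1), ?_, (x1, 0), ?_, Or.inl ⟨?_, rfl⟩⟩
    · rw [mem_RE_true]; omega
    · intro hw
      unfold Dm.wir at hw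
      simp only [Set.mem_ofPred_eq] at hw
      rcases hw with ⟨h2, h3, h4, h5⟩ | ⟨h2, h3, h4, h5⟩ | ⟨h2, h3, h4, h5⟩ <;>
        first | exact absurd h2 (by decide) | omega
    · exact Or.inl ⟨rfl, by show (0:ℤ) ≤ x1; omega, by show x1 ≤ D.r; omega⟩
    · intro h
      exact h ⟨⟨by show D.l ≤ x1; omega, by show x1 < D.r; omega⟩, le_rfl, by show 0 < D.h; omega⟩
    · simp
  · refine ⟨(D.r, y1, false), ?_, ?_, (D.r, y1), ?_, (D.r - 1, y1), ?_, Or.inr ⟨rfl, rfl⟩⟩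
    · rw [mem_RE_false]; omega
    · intro hw
      unfold Dm.wir at hw
      simp only [Set.mem_ofPred_eq] at hw
      rcases hw with ⟨h2, h3, h4, h5⟩ | ⟨h2, h3, h4, h5⟩ | ⟨h2, h3, h4, h5⟩ <;>
        first | exact absurd h2 (by decide) | omega
    · exact Or.inr (Or.inl ⟨rfl, by show (-1:ℤ) ≤ y1; omega, by show y1 ≤ D.h; omega⟩)
    · intro h
      exact h ⟨⟨by show D.l ≤ D.r - 1; omega, by show D.r - 1 < D.r; omega⟩,
        by show 0 ≤ y1; omega, by show y1 < D.h; omega⟩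
  · refine ⟨(x1, D.h, true), ?_, ?_, (x1, D.h), ?_, (x1, D.h - 1), ?_, Or.inr ⟨rfl, rfl⟩⟩
    · rw [mem_RE_true]; omega
    · intro hw
      unfold Dm.wir at hw
      simp only [Set.mem_ofPred_eq] at hw
      rcases hw with ⟨h2, h3, h4, h5⟩ | ⟨h2, h3, h4, h5⟩ | ⟨h2, h3, h4, h5⟩ <;>
        first | exact absurd h2 (by decide) | omega
    · exact Or.inr (Or.inr ⟨rfl, by show D.t ≤ x1; omega, by show x1 ≤ D.r; omega⟩)
    · intro h
      exact h ⟨⟨by show D.l ≤ x1; omega, by show x1 < D.r; omega⟩,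
        by show 0 ≤ D.h - 1; omega, by show D.h - 1 < D.h; omega⟩

theorem hit_of {D : Dm} (hD : D.Ok) {F : Finset Edg} (hF : F ⊆ D.edges) {x1 x2 y1 y2 : ℤ}
    (hb : Bx D x1 x2 y1 y2) {v f : Vtx} (hv : v ∈ D.clu F) (hvb : inR x1 x2 y1 y2 v)
    (hf : f ∈ D.dclu F) (hfb : inR (x1 - 1) x2 (y1 - 1) y2 f) :
    ∃ k ≤ D.len F, inR x1 x2 y1 y2 (D.walk F k).1 := by
  classical
  by_contra hcon
  push Not at hcon
  have hcon' : ∀ k ≤ D.len F, ¬ inR x1 x2 y1 y2 (D.walk F k).1 := hcon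
  have h0 : ¬ inR x1 x2 y1 y2 (0, 0) := by
    have h1 := hcon' _ le_rfl
    rw [walk_len hD hF] at h1
    exact h1
  have h1 : ¬ inR x1 x2 y1 y2 (D.t, D.h) := hcon' 0 (Nat.zero_le _)
  -- the vertices
  have hvert : ∀ F' : Finset Edg, (∀ e, e ∉ RE x1 x2 y1 y2 → (e ∈ F ↔ e ∈ F')) →
      ∃ w, inR x1 x2 y1 y2 w ∧ w ∈ D.clu F' := by
    intro F' hd
    have hr : Reach (D.cfg F) (0, 0) v := hv
    have hst : ∀ a b, ¬ inR x1 x2 y1 y2 a → Adj (D.cfg F) a b → Adj (D.cfg F') a b := by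
      rintro a b ha ⟨e, he, hc⟩
      refine ⟨e, ?_, hc⟩
      have h2 : e ∉ RE x1 x2 y1 y2 := by
        intro h3
        have h4 := vert_of_RE h3
        rcases hc with ⟨h5, _⟩ | ⟨_, h5⟩
        · exact ha (h5 ▸ h4.1)
        · exact ha (h5 ▸ h4.2)
      rcases he with he | he
      · exact Or.inl (Finset.mem_coe.2 ((hd e h2).1 (Finset.mem_coe.1 he)))
      · exact Or.inr he
    obtain ⟨w, hw1, hw2⟩ := first_hit hst hr hvb
    exact ⟨w, hw1, hw2⟩
  by_cases hα : ∃ g ∈ D.outer, inR (x1 - 1) x2 (y1 - 1) y2 g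
  · obtain ⟨g, hg, hgb⟩ := hα
    obtain ⟨e, he, hew, g', hg', f', hf', hc⟩ := edge_or hD hb h0 h1 hg hgb
    have heE : e ∈ D.edges := RE_sub hb he
    obtain ⟨F1, hF1⟩ : ∃ F1 : Finset Edg, F1 = F ∪ RE x1 x2 y1 y2 := ⟨_, rfl⟩
    obtain ⟨F2, hF2⟩ : ∃ F2 : Finset Edg, F2 = F1.erase e := ⟨_, rfl⟩
    have hd2 : ∀ e', e' ∉ RE x1 x2 y1 y2 → (e' ∈ F ↔ e' ∈ F2) := by
      intro e' he'
      rw [hF2, hF1, Finset.mem_erase, Finset.mem_union]
      constructor
      · intro h2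
        exact ⟨fun h3 => he' (h3 ▸ he), Or.inl h2⟩
      · rintro ⟨_, h2 | h2⟩
        · exact h2
        · exact absurd h2 he'
    have hF2s : F2 ⊆ D.edges := by
      intro e' he'
      rw [hF2, hF1, Finset.mem_erase, Finset.mem_union] at he'
      rcases he'.2 with h2 | h2
      · exact hF h2
      · exact RE_sub hb h2
    obtain ⟨w, hw1, hw2⟩ := hvert F2 hd2
    have hr : Reach (D.cfg F1) w (src e) := by
      refine (box_conn hw1 (vert_of_RE he).1).mono ?_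
      intro e' he'
      refine Or.inl ?_
      rw [hF1, Finset.coe_union]
      exact Or.inr he'
    have hst : ∀ a b, ¬ (a = src e ∨ a = tgt e) → Adj (D.cfg F1) a b → Adj (D.cfg F2) a b := by
      rintro a b ha ⟨e', he', hc'⟩
      refine ⟨e', ?_, hc'⟩
      have hne : e' ≠ e := by
        rintro rfl
        rcases hc' with ⟨h2, _⟩ | ⟨_, h2⟩
        · exact ha (Or.inl h2.symm)
        · exact ha (Or.inr h2.symm)
      rcases he' with h2 | h2
      · left
        rw [hF2]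
        exact Finset.mem_coe.2 (Finset.mem_erase.2 ⟨hne, Finset.mem_coe.1 h2⟩)
      · exact Or.inr h2
    obtain ⟨w', hw1', hw2'⟩ := first_hit (P := fun z => z = src e ∨ z = tgt e) hst hr (Or.inl rfl)
    have hcl : w' ∈ D.clu F2 := by
      have h2 : Reach (D.cfg F2) (0, 0) w := hw2
      exact h2.trans hw2'
    have hcf : f' ∈ D.dclu F2 := by
      refine ⟨g', hg', DAdj.reach ⟨e, ⟨Finset.mem_coe.2 heE, ?_⟩, hc⟩⟩
      rintro (h2 | h2)
      · rw [hF2] at h2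
        exact absurd (Finset.mem_coe.1 h2) (Finset.notMem_erase _ _)
      · exact hew h2
    have hfe : f' = dsrc e ∨ f' = dtgt e := by
      rcases hc with ⟨_, h2⟩ | ⟨h2, _⟩
      · exact Or.inr h2.symm
      · exact Or.inl h2.symm
    obtain ⟨q, hq⟩ := corner_of_edge e hw1' hfe
    have hvis := TH992.T.vis_of (σ := (w', q)) hD hF2s hcl (hq ▸ hcf) (hq ▸ hf')
    refine not_vis hD hF hcon' hd2 hvis ?_
    show inR x1 x2 y1 y2 w'
    rcases hw1' with h2 | h2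
    · rw [h2]; exact (vert_of_RE he).1
    · rw [h2]; exact (vert_of_RE he).2
  · push Not at hα
    obtain ⟨F1, hF1⟩ : ∃ F1 : Finset Edg, F1 = F ∪ RE x1 x2 y1 y2 := ⟨_, rfl⟩
    have hd1 : ∀ e', e' ∉ RE x1 x2 y1 y2 → (e' ∈ F ↔ e' ∈ F1) := by
      intro e' he'
      rw [hF1, Finset.mem_union]
      constructor
      · exact fun h2 => Or.inl h2
      · rintro (h2 | h2)
        · exact h2
        · exact absurd h2 he'
    have hF1s : F1 ⊆ D.edges := by
      intro e' he'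
      rw [hF1, Finset.mem_union] at he'
      rcases he' with h2 | h2
      · exact hF h2
      · exact RE_sub hb h2
    obtain ⟨g, hg, hr⟩ := hf
    have hst : ∀ a b, ¬ inR (x1 - 1) x2 (y1 - 1) y2 a →
        DAdj (↑D.edges \ D.cfg F : Set Edg) a b → DAdj (↑D.edges \ D.cfg F1 : Set Edg) a b := by
      rintro a b ha ⟨e, ⟨he1, he2⟩, hc⟩
      refine ⟨e, ⟨he1, ?_⟩, hc⟩
      have h2 : e ∉ RE x1 x2 y1 y2 := by
        intro h3
        have h4 := dface_of_RE h3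
        rcases hc with ⟨h5, _⟩ | ⟨_, h5⟩
        · exact ha (h5 ▸ h4.1)
        · exact ha (h5 ▸ h4.2)
      rintro (h3 | h3)
      · exact he2 (Or.inl (Finset.mem_coe.2 ((hd1 e h2).2 (Finset.mem_coe.1 h3))))
      · exact he2 (Or.inr h3)
    obtain ⟨f2, hf2, hr2⟩ := first_hit hst hr hfb
    have hcf : f2 ∈ D.dclu F1 := ⟨g, hg, hr2⟩
    have hin : ¬ TH992.T.Out D f2 := by
      rcases dclu_in hD hcf with h2 | h2
      · exact absurd hf2 (hα _ h2)
      · exact fun h3 => h3 h2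
    obtain ⟨σ, hσ1, hσ2⟩ := corner_of_face hb.b.le hb.e.le hf2
    obtain ⟨w, hw1, hw2⟩ := hvert F1 hd1
    have hcl : σ.1 ∈ D.clu F1 := by
      have h2 : Reach (D.cfg F1) (0, 0) w := hw2
      refine h2.trans ((box_conn hw1 hσ1).mono ?_)
      intro e' he'
      refine Or.inl ?_
      rw [hF1, Finset.coe_union]
      exact Or.inr he'
    have hvis := TH992.T.vis_of hD hF1s hcl (hσ2 ▸ hcf) (hσ2 ▸ hin)
    exact not_vis hD hF hcon' hd1 hvis hσ1

/-- The box is visited if and only if both clusters reach it. -/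
theorem hit_iff {D : Dm} (hD : D.Ok) {F : Finset Edg} (hF : F ⊆ D.edges) {x1 x2 y1 y2 : ℤ}
    (hb : Bx D x1 x2 y1 y2) : (∃ k ≤ D.len F, inR x1 x2 y1 y2 (D.walk F k).1) ↔
      (∃ v ∈ D.clu F, inR x1 x2 y1 y2 v) ∧
        ∃ f ∈ D.dclu F, inR (x1 - 1) x2 (y1 - 1) y2 f := by
  constructor
  · rintro ⟨k, hk, h⟩
    obtain ⟨h1, h2⟩ := walk_clu hD hF hk
    exact ⟨⟨_, h1, h⟩, _, h2, face_near _ h⟩
  · rintro ⟨⟨v, h1, h2⟩, f, h3, h4⟩
    exact hit_of hD hF hb h1 h2 h3 h4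

end Pool.Agent.Zk60.NW
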