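import Pool.Agent.Zk60.NW.St
import Pool.Agent.Zk78.Cpl


/-!
The traces of the exploration paths of two coupled configurations are close.
-/

set_option autoImplicit false

namespace Pool.Agent.Zk60.NW

open H974 Finset H342P H984P H984N

theorem hitV_mono {D : Dm} {F F' : Finset Edg} (h : F ⊆ F') {x1 x2 y1 y2 : ℤ}
    (h1 : HitV D x1 x2 y1 y2 F) : HitV D x1 x2 y1 y2 F' := by
  obtain ⟨v, hv, hvb⟩ := h1
  have hr : Reach (D.cfg F) (0, 0) v := hv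
  refine ⟨v, hr.mono ?_, hvb⟩
  exact Set.union_subset_union_left _ (by exact_mod_cast h)

theorem hitF_anti {D : Dm} {F F' : Finset Edg} (h : F ⊆ F') {x1 x2 y1 y2 : ℤ}
    (h1 : HitF D x1 x2 y1 y2 F') : HitF D x1 x2 y1 y2 F := by
  obtain ⟨f, ⟨g, hg, hr⟩, hfb⟩ := h1
  refine ⟨f, ⟨g, hg, hr.mono ?_⟩, hfb⟩
  intro e he
  refine ⟨he.1, fun h2 => he.2 ?_⟩
  rcases h2 with h2 | h2
  · exact Or.inl (Finset.mem_coe.2 (h (Finset.mem_coe.1 h2)))
  · exact Or.inr h2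

/-- First coordinate of a box. -/
def bx (lo hi m : ℤ) (i : ℕ) : ℤ := min (lo + i * m) (hi - m)

theorem bx_ge {lo hi m : ℤ} (hm : 0 < m) (hmh : m ≤ hi - lo) (i : ℕ) : lo ≤ bx lo hi m i := by
  unfold bx
  have : (0:ℤ) ≤ i * m := by positivity
  exact le_min (by omega) (by omega)

theorem bx_le {lo hi m : ℤ} (i : ℕ) : bx lo hi m i + m ≤ hi := by
  unfold bx
  have := min_le_right (lo + i * m) (hi - m)
  omega

theorem cover {lo hi' m x : ℤ} (hm : 0 < m) (hmh : m ≤ hi' - lo) (h1 : lo ≤ x) (h2 : x ≤ hi')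
    {K : ℕ} (hK : hi' - lo < ((K:ℤ) + 1) * m) :
    ∃ i ∈ Finset.range (K + 1), bx lo hi' m i ≤ x ∧ x ≤ bx lo hi' m i + m := by
  have h3 : 0 ≤ (x - lo) / m := Int.ediv_nonneg (by omega) hm.le
  have h4 : (x - lo) / m < (K:ℤ) + 1 := Int.ediv_lt_of_lt_mul hm (by omega)
  have h5 : (x - lo) / m * m ≤ x - lo := Int.ediv_mul_le _ hm.ne'
  have h6 : x - lo < ((x - lo) / m + 1) * m := Int.lt_ediv_add_one_mul_self _ hm
  obtain ⟨i, hi⟩ : ∃ i : ℕ, (i:ℤ) = (x - lo) / m := ⟨((x - lo) / m).toNat, by omega⟩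
  rw [← hi] at h4 h5 h6
  refine ⟨i, Finset.mem_range.2 (by omega), ?_⟩
  unfold bx
  rw [add_mul, one_mul] at h6
  constructor
  · exact (min_le_left _ _).trans (by omega)
  · have h7 : x - m ≤ min (lo + i * m) (hi' - m) := le_min (by omega) (by omega)
    omega

/-- The bad event of a box. -/
noncomputable def dif (D : Dm) (m : ℤ) (i j : ℕ) (F F' : Finset Edg) : ℝ :=
  |ind (HitV D (bx D.l D.r m i) (bx D.l D.r m i + m) (bx 0 D.h m j) (bx 0 D.h m j + m) F) -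
    ind (HitV D (bx D.l D.r m i) (bx D.l D.r m i + m) (bx 0 D.h m j) (bx 0 D.h m j + m) F')| +
  |ind (HitF D (bx D.l D.r m i) (bx D.l D.r m i + m) (bx 0 D.h m j) (bx 0 D.h m j + m) F) -
    ind (HitF D (bx D.l D.r m i) (bx D.l D.r m i + m) (bx 0 D.h m j) (bx 0 D.h m j + m) F')|

theorem ind_eq_of {P Q : Prop} (h : |ind P - ind Q| < 1) : P ↔ Q := by
  by_cases hP : P <;> by_cases hQ : Q
  · exact ⟨fun _ => hQ, fun _ => hP⟩
  · rw [ind_of hP, ind_not_of hQ] at h; norm_num at h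
  · rw [ind_not_of hP, ind_of hQ] at h; norm_num at h
  · exact ⟨fun h => absurd h hP, fun h => absurd h hQ⟩

theorem bx_Bx {D : Dm} {m : ℤ} (hm : 0 < m) (h1 : m ≤ D.r - D.l) (h2 : m ≤ D.h) (i j : ℕ) :
    Bx D (bx D.l D.r m i) (bx D.l D.r m i + m) (bx 0 D.h m j) (bx 0 D.h m j + m) :=
  ⟨bx_ge hm h1 i, by omega, bx_le i, bx_ge hm (by omega) j, by omega, bx_le j⟩

theorem walk_rect {D : Dm} (hD : D.Ok) {F : Finset Edg} (hF : F ⊆ D.edges) {k : ℕ}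
    (hk : k ≤ D.len F) : inR D.l D.r 0 D.h (D.walk F k).1 :=
  clu_inR hD hF (walk_clu hD hF hk).1

/-- Without bad boxes the two paths visit the same boxes. -/
theorem near_of_same {D : Dm} (hD : D.Ok) {F F' : Finset Edg} (hF : F ⊆ D.edges)
    (hF' : F' ⊆ D.edges) {m : ℤ} (hm : 0 < m) (h1 : m ≤ D.r - D.l) (h2 : m ≤ D.h) {K : ℕ}
    (hK1 : D.r - D.l < ((K:ℤ) + 1) * m) (hK2 : D.h < ((K:ℤ) + 1) * m)
    (hs : ∀ i ∈ Finset.range (K + 1), ∀ j ∈ Finset.range (K + 1), dif D m i j F F' < 1) :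
    ∀ k ≤ D.len F, ∃ l ≤ D.len F', sd (D.walk F k).1 (D.walk F' l).1 ≤ m := by
  intro k hk
  have hin := walk_rect hD hF hk
  obtain ⟨i, hi, hi1, hi2⟩ := cover hm h1 hin.1.1 hin.1.2 hK1
  obtain ⟨j, hj, hj1, hj2⟩ := cover (lo := 0) (hi' := D.h) hm (by omega) hin.2.1 hin.2.2
    (by rw [sub_zero]; exact hK2)
  have hb := bx_Bx hm h1 h2 i j
  have hd := hs i hi j hj
  unfold dif at hd
  have e1 := ind_eq_of (lt_of_le_of_lt (le_add_of_nonneg_right (abs_nonneg _)) hd)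
  have e2 := ind_eq_of (lt_of_le_of_lt (le_add_of_nonneg_left (abs_nonneg _)) hd)
  have h3 := (hit_iff hD hF hb).1 ⟨k, hk, ⟨hi1, hi2⟩, hj1, hj2⟩
  obtain ⟨l, hl, hl2⟩ := (hit_iff hD hF' hb).2 ⟨e1.1 h3.1, e2.1 h3.2⟩
  refine ⟨l, hl, ?_⟩
  unfold inR at hl2
  unfold sd
  refine max_le ?_ ?_
  · rw [abs_le]
    constructor <;> omega
  · rw [abs_le]
    constructor <;> omega

end Pool.Agent.Zk60.NW
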