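import Pool.Agent.Zk60.NW.Main

/-!
The probability that the traces of two coupled exploration paths differ by `ρ`.
-/

set_option autoImplicit false

namespace Pool.Agent.Zk60.NW

open H974 Finset H342P H984P H984N

/-- The weights `c` are nonnegative, and every increasing function of the two configurations is
kept between the parameters `1/2 - ε` and `1/2 + ε`. -/
def Cp (ε : ℝ) (S : Finset Edg) (c : Finset Edg → Finset Edg → ℝ) : Prop :=
  (∀ F F', 0 ≤ c F F') ∧ ∀ g : Finset Edg → ℝ, (∀ F F', F ⊆ F' → F' ⊆ S → g F ≤ g F') →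
    ∑ F ∈ S.powerset, ∑ F' ∈ S.powerset, c F F' * |g F - g F'| ≤
      Ex (fun _ => 1/2 + ε) S g - Ex (fun _ => 1/2 - ε) S g

variable {ε : ℝ} {S : Finset Edg} {c : Finset Edg → Finset Edg → ℝ}

theorem inc_bound (hc : Cp ε S c) (h0 : 0 ≤ ε) (h1 : ε ≤ 1/2) {A : Finset Edg → Prop} {B : ℝ}
    (hA : ∀ F F', F ⊆ F' → F' ⊆ S → A F → A F')
    (hB : ∀ q : ℝ, 0 ≤ q → q ≤ 1 → |Pr (fun _ => q) S A - Pr (fun _ => 1/2) S A| ≤
      B * |q - 1/2|) :
    ∑ F ∈ S.powerset, ∑ F' ∈ S.powerset, c F F' * |ind (A F) - ind (A F')| ≤ 2 * B * ε := by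
  refine (hc.2 (fun F => ind (A F)) (fun F F' h2 h3 => ind_mono (hA F F' h2 h3))).trans ?_
  have e1 := hB (1/2 + ε) (by linarith) (by linarith)
  have e2 := hB (1/2 - ε) (by linarith) (by linarith)
  rw [show (1/2 + ε - 1/2 : ℝ) = ε by ring, abs_of_nonneg h0] at e1
  rw [show (1/2 - ε - 1/2 : ℝ) = -ε by ring, abs_neg, abs_of_nonneg h0] at e2
  have e3 := (abs_le.1 e1).2
  have e4 := (abs_le.1 e2).1
  unfold Pr at e3 e4
  linarith

theorem dec_bound (hc : Cp ε S c) (h0 : 0 ≤ ε) (h1 : ε ≤ 1/2) {A : Finset Edg → Prop} {B : ℝ}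
    (hA : ∀ F F', F ⊆ F' → F' ⊆ S → A F' → A F)
    (hB : ∀ q : ℝ, 0 ≤ q → q ≤ 1 → |Pr (fun _ => q) S A - Pr (fun _ => 1/2) S A| ≤
      B * |q - 1/2|) :
    ∑ F ∈ S.powerset, ∑ F' ∈ S.powerset, c F F' * |ind (A F) - ind (A F')| ≤ 2 * B * ε := by
  have h2 := hc.2 (fun F => -1 * ind (A F)) (fun F F' h2 h3 => by
    have := ind_mono (hA F F' h2 h3)
    linarith)
  have h3 : ∀ F F', |(-1 * ind (A F)) - (-1 * ind (A F'))| = |ind (A F) - ind (A F')| := by
    intro F F'
    rw [show (-1 * ind (A F)) - (-1 * ind (A F')) = -(ind (A F) - ind (A F')) by ring, abs_neg]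
  simp only [h3] at h2
  refine h2.trans ?_
  rw [Ex_mul_left, Ex_mul_left]
  have e1 := hB (1/2 + ε) (by linarith) (by linarith)
  have e2 := hB (1/2 - ε) (by linarith) (by linarith)
  rw [show (1/2 + ε - 1/2 : ℝ) = ε by ring, abs_of_nonneg h0] at e1
  rw [show (1/2 - ε - 1/2 : ℝ) = -ε by ring, abs_neg, abs_of_nonneg h0] at e2
  have e3 := (abs_le.1 e1).1
  have e4 := (abs_le.1 e2).2
  unfold Pr at e3 e4
  linarith

theorem pr_mem {e : Edg} (he : e ∈ S) (q : ℝ) : Pr (fun _ => q) S (fun F => e ∈ F) = q := by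
  have hs : ({e} : Finset Edg) ⊆ S := Finset.singleton_subset_iff.2 he
  rw [Pr_local hs (fun F _ => by simp)]
  unfold Pr
  have h2 : ({e} : Finset Edg) = insert e ∅ := rfl
  rw [h2, Ex_insert _ (Finset.notMem_empty e), Ex_empty, Ex_empty,
    ind_of (Finset.mem_insert_self _ _), ind_not_of (Finset.notMem_empty e)]
  ring

/-- The two configurations differ with probability at most `2 ε |S|`. -/
theorem neq_bound (hc : Cp ε S c) (h0 : 0 ≤ ε) (h1 : ε ≤ 1/2) {P : Finset Edg → Finset Edg → Prop}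
    (hP : ∀ F F', P F F' → F ≠ F') :
    ∑ F ∈ S.powerset, ∑ F' ∈ S.powerset, c F F' * ind (P F F') ≤ 2 * ε * S.card := by
  have key : ∀ F ∈ S.powerset, ∀ F' ∈ S.powerset, c F F' * ind (P F F') ≤
      ∑ e ∈ S, c F F' * |ind (e ∈ F) - ind (e ∈ F')| := by
    intro F hF F' hF'
    rw [← Finset.mul_sum]
    refine mul_le_mul_of_nonneg_left ?_ (hc.1 F F')
    by_cases h : P F F'
    · rw [ind_of h]
      have hne := hP F F' h
      have hex : ∃ e ∈ S, ¬ (e ∈ F ↔ e ∈ F') := by
        by_contra hcon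
        have hcon2 : ∀ e ∈ S, (e ∈ F ↔ e ∈ F') := fun e he => by
          by_contra h2
          exact hcon ⟨e, he, h2⟩
        apply hne
        ext e
        constructor
        · intro he
          exact (hcon2 e (Finset.mem_powerset.1 hF he)).1 he
        · intro he
          exact (hcon2 e (Finset.mem_powerset.1 hF' he)).2 he
      obtain ⟨e, he, hee⟩ := hex
      refine le_trans ?_ (Finset.single_le_sum (fun e _ => abs_nonneg _) he)
      by_contra hcon
      push Not at hcon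
      exact hee (ind_eq_of hcon)
    · rw [ind_not_of h]
      exact Finset.sum_nonneg fun e _ => abs_nonneg _
  calc ∑ F ∈ S.powerset, ∑ F' ∈ S.powerset, c F F' * ind (P F F')
      ≤ ∑ F ∈ S.powerset, ∑ F' ∈ S.powerset, ∑ e ∈ S, c F F' * |ind (e ∈ F) - ind (e ∈ F')| :=
        Finset.sum_le_sum fun F hF => Finset.sum_le_sum fun F' hF' => key F hF F' hF'
    _ = ∑ e ∈ S, ∑ F ∈ S.powerset, ∑ F' ∈ S.powerset, c F F' * |ind (e ∈ F) - ind (e ∈ F')| := by
        rw [Finset.sum_comm]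
        refine Eq.trans ?_ (Finset.sum_congr rfl fun e _ => Finset.sum_comm)
        rw [Finset.sum_comm]
        refine Eq.trans (Finset.sum_congr rfl fun F _ => Finset.sum_comm) ?_
        rw [Finset.sum_comm]
        refine Finset.sum_congr rfl fun e _ => ?_
        rw [Finset.sum_comm]
    _ ≤ ∑ _e ∈ S, 2 * ε := by
        refine Finset.sum_le_sum fun e he => ?_
        refine (inc_bound hc h0 h1 (A := fun F => e ∈ F) (B := 1)
          (fun F F' h2 _ h3 => h2 h3) ?_).trans (by linarith)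
        intro q _ _
        rw [pr_mem he, pr_mem he, one_mul]
    _ = 2 * ε * S.card := by
        rw [Finset.sum_const, nsmul_eq_mul]
        ring

end Pool.Agent.Zk60.NW
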