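import Pool.Agent.Zk60.NW.Quant
import Pool.Agent.Zk80.Hd

/-!
The Hausdorff distance of the traces of two coupled exploration paths.
-/

set_option autoImplicit false

namespace Pool.Agent.Zk60.NW

open H974 Finset H342P H984P H984N

theorem dif_comm (D : Dm) (m : ℤ) (i j : ℕ) (F F' : Finset Edg) :
    dif D m i j F F' = dif D m i j F' F := by
  unfold dif
  rw [abs_sub_comm (ind (HitV _ _ _ _ _ F)), abs_sub_comm (ind (HitF _ _ _ _ _ F))]

theorem dif_nonneg (D : Dm) (m : ℤ) (i j : ℕ) (F F' : Finset Edg) : 0 ≤ dif D m i j F F' :=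
  add_nonneg (abs_nonneg _) (abs_nonneg _)

/-- The distance of the traces. -/
noncomputable def hd (R : Rect) (δ : ℝ) (F F' : Finset Edg) : ℝ :=
  Metric.hausdorffDist (Set.range (R.curve δ F)) (Set.range (R.curve δ F'))

theorem big_bound {R : Rect} {δ C0 : ℝ} (hD : (R.dm δ).Ok) (hδ : 0 < δ)
    (hst : ∀ x1 x2 y1 y2 : ℤ, Bx (R.dm δ) x1 x2 y1 y2 → ∀ q : ℝ, 0 ≤ q → q ≤ 1 →
      |Pr (fun _ => q) (R.dm δ).edges (HitV (R.dm δ) x1 x2 y1 y2) -
        Pr (fun _ => 1/2) (R.dm δ).edges (HitV (R.dm δ) x1 x2 y1 y2)| ≤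
          C0 * |q - 1/2| * δ ^ (-(3/4 : ℝ)) ∧
      |Pr (fun _ => q) (R.dm δ).edges (HitF (R.dm δ) x1 x2 y1 y2) -
        Pr (fun _ => 1/2) (R.dm δ).edges (HitF (R.dm δ) x1 x2 y1 y2)| ≤
          C0 * |q - 1/2| * δ ^ (-(3/4 : ℝ)))
    {ε : ℝ} {c : Finset Edg → Finset Edg → ℝ} (hc : Cp ε (R.dm δ).edges c) (h0 : 0 ≤ ε)
    (h1 : ε ≤ 1/2) {m : ℤ} (hm : 0 < m) (hm1 : m ≤ (R.dm δ).r - (R.dm δ).l)
    (hm2 : m ≤ (R.dm δ).h) {K : ℕ} (hK1 : (R.dm δ).r - (R.dm δ).l < ((K:ℤ) + 1) * m)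
    (hK2 : (R.dm δ).h < ((K:ℤ) + 1) * m) {ρ : ℝ} (hρ : 2 * δ * (m + 3) ≤ ρ) :
    ∑ F ∈ (R.dm δ).edges.powerset, ∑ F' ∈ (R.dm δ).edges.powerset,
      c F F' * ind (ρ < hd R δ F F') ≤
      ((K:ℝ) + 1) ^ 2 * (4 * C0 * δ ^ (-(3/4 : ℝ)) * ε) := by
  obtain ⟨D, hDe⟩ : ∃ D : Dm, D = R.dm δ := ⟨_, rfl⟩
  have key : ∀ F ∈ (R.dm δ).edges.powerset, ∀ F' ∈ (R.dm δ).edges.powerset,
      c F F' * ind (ρ < hd R δ F F') ≤
      ∑ i ∈ Finset.range (K + 1), ∑ j ∈ Finset.range (K + 1),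
        c F F' * dif (R.dm δ) m i j F F' := by
    intro F hF F' hF'
    simp only [← Finset.mul_sum]
    refine mul_le_mul_of_nonneg_left ?_ (hc.1 F F')
    by_cases h : ρ < hd R δ F F'
    · rw [ind_of h]
      have hF1 := Finset.mem_powerset.1 hF
      have hF1' := Finset.mem_powerset.1 hF'
      have hex : ∃ i ∈ Finset.range (K + 1), ∃ j ∈ Finset.range (K + 1),
          1 ≤ dif (R.dm δ) m i j F F' := by
        by_contra hcon
        have hcon2 : ∀ i ∈ Finset.range (K + 1), ∀ j ∈ Finset.range (K + 1),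
            dif (R.dm δ) m i j F F' < 1 := fun i hi j hj => by
          by_contra h2
          exact hcon ⟨i, hi, j, hj, not_lt.1 h2⟩
        have n1 := near_of_same hD hF1 hF1' hm hm1 hm2 hK1 hK2 hcon2
        have n2 := near_of_same hD hF1' hF1 hm hm1 hm2 hK1 hK2
          (fun i hi j hj => by rw [dif_comm]; exact hcon2 i hi j hj)
        have := Zk80.Hd.hd_of R δ hδ m (by omega : 1 ≤ m) F F' hF1 hF1' hD n1 n2
        unfold hd at h
        linarith
      obtain ⟨i, hi, j, hj, hij⟩ := hex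
      refine hij.trans ?_
      refine le_trans ?_ (Finset.single_le_sum (f := fun i => ∑ j ∈ Finset.range (K + 1),
        dif (R.dm δ) m i j F F') (fun i _ => Finset.sum_nonneg fun j _ => dif_nonneg _ _ _ _ _ _)
        hi)
      exact Finset.single_le_sum (f := fun j => dif (R.dm δ) m i j F F')
        (fun j _ => dif_nonneg _ _ _ _ _ _) hj
    · rw [ind_not_of h]
      exact Finset.sum_nonneg fun i _ => Finset.sum_nonneg fun j _ => dif_nonneg _ _ _ _ _ _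
  have hone : ∀ i ∈ Finset.range (K + 1), ∀ j ∈ Finset.range (K + 1),
      ∑ F ∈ (R.dm δ).edges.powerset, ∑ F' ∈ (R.dm δ).edges.powerset,
        c F F' * dif (R.dm δ) m i j F F' ≤ 4 * C0 * δ ^ (-(3/4 : ℝ)) * ε := by
    intro i _ j _
    have hb := bx_Bx hm hm1 hm2 i j
    have a1 := inc_bound hc h0 h1 (B := C0 * δ ^ (-(3/4 : ℝ)))
      (A := HitV (R.dm δ) (bx (R.dm δ).l (R.dm δ).r m i) (bx (R.dm δ).l (R.dm δ).r m i + m)
        (bx 0 (R.dm δ).h m j) (bx 0 (R.dm δ).h m j + m))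
      (fun F F' h2 _ h3 => hitV_mono h2 h3)
      (fun q q0 q1 => ((hst _ _ _ _ hb q q0 q1).1).trans (le_of_eq (by ring)))
    have a2 := dec_bound hc h0 h1 (B := C0 * δ ^ (-(3/4 : ℝ)))
      (A := HitF (R.dm δ) (bx (R.dm δ).l (R.dm δ).r m i) (bx (R.dm δ).l (R.dm δ).r m i + m)
        (bx 0 (R.dm δ).h m j) (bx 0 (R.dm δ).h m j + m))
      (fun F F' h2 _ h3 => hitF_anti h2 h3)
      (fun q q0 q1 => ((hst _ _ _ _ hb q q0 q1).2).trans (le_of_eq (by ring)))
    unfold dif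
    simp only [mul_add, Finset.sum_add_distrib]
    linarith
  calc ∑ F ∈ (R.dm δ).edges.powerset, ∑ F' ∈ (R.dm δ).edges.powerset,
        c F F' * ind (ρ < hd R δ F F')
      ≤ ∑ F ∈ (R.dm δ).edges.powerset, ∑ F' ∈ (R.dm δ).edges.powerset,
        ∑ i ∈ Finset.range (K + 1), ∑ j ∈ Finset.range (K + 1),
          c F F' * dif (R.dm δ) m i j F F' :=
        Finset.sum_le_sum fun F hF => Finset.sum_le_sum fun F' hF' => key F hF F' hF'
    _ = ∑ i ∈ Finset.range (K + 1), ∑ j ∈ Finset.range (K + 1),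
        ∑ F ∈ (R.dm δ).edges.powerset, ∑ F' ∈ (R.dm δ).edges.powerset,
          c F F' * dif (R.dm δ) m i j F F' := by
        have e1 : ∀ F ∈ (R.dm δ).edges.powerset,
            ∑ F' ∈ (R.dm δ).edges.powerset, ∑ i ∈ Finset.range (K + 1),
              ∑ j ∈ Finset.range (K + 1), c F F' * dif (R.dm δ) m i j F F' =
            ∑ i ∈ Finset.range (K + 1), ∑ j ∈ Finset.range (K + 1),
              ∑ F' ∈ (R.dm δ).edges.powerset, c F F' * dif (R.dm δ) m i j F F' := by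
          intro F _
          rw [Finset.sum_comm]
          exact Finset.sum_congr rfl fun i _ => Finset.sum_comm
        rw [Finset.sum_congr rfl e1, Finset.sum_comm]
        exact Finset.sum_congr rfl fun i _ => Finset.sum_comm
    _ ≤ ∑ _i ∈ Finset.range (K + 1), ∑ _j ∈ Finset.range (K + 1),
        4 * C0 * δ ^ (-(3/4 : ℝ)) * ε :=
        Finset.sum_le_sum fun i hi => Finset.sum_le_sum fun j hj => hone i hi j hj
    _ = ((K:ℝ) + 1) ^ 2 * (4 * C0 * δ ^ (-(3/4 : ℝ)) * ε) := by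
        rw [Finset.sum_const, Finset.sum_const, Finset.card_range, nsmul_eq_mul, nsmul_eq_mul]
        push_cast
        ring

theorem card_RE_le (a b c d : ℤ) : ((RE a b c d).card : ℤ) ≤
    2 * ((max 0 (b + 1 - a)) * (max 0 (d + 1 - c))) := by
  have h1 : (RE a b c d).card ≤ (Finset.Icc a b ×ˢ (Finset.Icc c d ×ˢ
      (Finset.univ : Finset Bool))).card := Finset.card_filter_le _ _
  rw [Finset.card_product, Finset.card_product, Int.card_Icc, Int.card_Icc, Finset.card_univ,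
    Fintype.card_bool] at h1
  have h2 : ((RE a b c d).card : ℤ) ≤
      (((b + 1 - a).toNat * ((d + 1 - c).toNat * 2) : ℕ) : ℤ) := by exact_mod_cast h1
  refine h2.trans (le_of_eq ?_)
  push_cast
  rw [Int.toNat_eq_max, Int.toNat_eq_max, max_comm (b + 1 - a), max_comm (d + 1 - c)]
  ring

/-- **The traces of the two paths are close.** -/
theorem hd_bound (R : Rect) : ∃ C δ0 : ℝ, 0 < C ∧ 0 < δ0 ∧ δ0 ≤ 1 ∧ ∀ δ : ℝ, 0 < δ → δ ≤ δ0 →
    ∀ ε : ℝ, 0 ≤ ε → ε ≤ 1/2 → ∀ c : Finset Edg → Finset Edg → ℝ,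
    Cp ε (R.dm δ).edges c → ∀ ρ : ℝ, 0 < ρ → ρ ≤ 1 →
    ∑ F ∈ (R.dm δ).edges.powerset, ∑ F' ∈ (R.dm δ).edges.powerset,
      c F F' * ind (ρ < hd R δ F F') ≤ C * (ε * δ ^ (-(3/4 : ℝ))) / ρ ^ 2 := by
  obtain ⟨κ, S, d1, hκ, hS, hd1, hd11, hsh⟩ := R.shape
  obtain ⟨C0, d2, hC0, hd2, hd21, hst⟩ := box_stab R
  obtain ⟨s0, hs0⟩ : ∃ s0, s0 = min (κ * S) S := ⟨_, rfl⟩
  have hs0p : 0 < s0 := by rw [hs0]; exact lt_min (by positivity) hS
  have hs0a : s0 ≤ κ * S := by rw [hs0]; exact min_le_left _ _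
  have hs0b : s0 ≤ S := by rw [hs0]; exact min_le_right _ _
  obtain ⟨C1, hC1⟩ : ∃ C1, C1 = 9 * S ^ 2 * (256 + 1 / s0 ^ 2) * (4 * C0) + 4096 * S ^ 2 :=
    ⟨_, rfl⟩
  have hC1p : 0 < C1 := by rw [hC1]; positivity
  refine ⟨C1, min (min d1 d2) s0, hC1p, lt_min (lt_min hd1 hd2) hs0p,
    (min_le_left _ _).trans ((min_le_left _ _).trans hd11), ?_⟩
  intro δ hδ hδle ε h0 h1 c hc ρ hρ hρ1
  have hδ1 : δ ≤ d1 := hδle.trans ((min_le_left _ _).trans (min_le_left _ _))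
  have hδ2 : δ ≤ d2 := hδle.trans ((min_le_left _ _).trans (min_le_right _ _))
  have hδ3 : δ ≤ s0 := hδle.trans (min_le_right _ _)
  have hδone : δ ≤ 1 := hδ1.trans hd11
  obtain ⟨hok, hst2⟩ := hst δ hδ hδ2
  have hshape := hsh δ hδ hδ1
  have hdp : 1 ≤ δ ^ (-(3/4 : ℝ)) :=
    Real.one_le_rpow_of_pos_of_le_one_of_nonpos hδ hδone (by norm_num)
  have hw := hshape.w_le
  have hh := hshape.h_le
  have hl := hshape.l_ge
  have hr := hshape.r_ge
  have hh2 := hshape.h_ge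
  have hρ2 : 0 < ρ ^ 2 := by positivity
  have hX : 0 ≤ ε * δ ^ (-(3/4 : ℝ)) := mul_nonneg h0 (by linarith)
  by_cases hcase : 16 * δ ≤ ρ
  · obtain ⟨s, hs⟩ : ∃ s, s = min (ρ / 16) s0 := ⟨_, rfl⟩
    have hsp : 0 < s := by rw [hs]; exact lt_min (by positivity) hs0p
    have hsa : s ≤ ρ / 16 := by rw [hs]; exact min_le_left _ _
    have hsb : s ≤ s0 := by rw [hs]; exact min_le_right _ _
    have hsδ : δ ≤ s := by rw [hs]; exact le_min (by linarith) hδ3
    have hsd1 : 1 ≤ s / δ := by rw [le_div_iff₀ hδ]; linarith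
    obtain ⟨m, hm⟩ : ∃ m : ℤ, m = ⌊s / δ⌋ := ⟨_, rfl⟩
    have hm1 : 1 ≤ m := by
      rw [hm, Int.le_floor]
      exact_mod_cast hsd1
    have hmr : (m:ℝ) ≤ s / δ := by rw [hm]; exact Int.floor_le _
    have hmr2 : s / (2 * δ) ≤ m := by
      have h2 : s / δ < (m:ℝ) + 1 := by rw [hm]; exact Int.lt_floor_add_one _
      have h3 : (1:ℝ) ≤ m := by exact_mod_cast hm1
      have h4 : s / (2 * δ) = s / δ / 2 := by field_simp
      rw [h4]
      linarith
    have hmS : (m:ℝ) ≤ κ * (S / δ) := by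
      refine hmr.trans ?_
      rw [← mul_div_assoc]
      exact div_le_div_of_nonneg_right (hsb.trans hs0a) hδ.le
    have hm_r : m ≤ (R.dm δ).r := by
      have : (m:ℝ) ≤ ((R.dm δ).r : ℝ) := hmS.trans hr
      exact_mod_cast this
    have hm_h : m ≤ (R.dm δ).h := by
      have : (m:ℝ) ≤ ((R.dm δ).h : ℝ) := hmS.trans hh2
      exact_mod_cast this
    obtain ⟨K, hK⟩ : ∃ K : ℕ, K = ⌊2 * S / s⌋₊ := ⟨_, rfl⟩
    have hKr : 2 * S / s < (K:ℝ) + 1 := by rw [hK]; exact Nat.lt_floor_add_one _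
    have hKm : S / δ < ((K:ℝ) + 1) * m := by
      calc S / δ = 2 * S / s * (s / (2 * δ)) := by field_simp
        _ ≤ 2 * S / s * m := mul_le_mul_of_nonneg_left hmr2 (by positivity)
        _ < ((K:ℝ) + 1) * m := by
            have h3 : (0:ℝ) < m := by exact_mod_cast (by omega : 0 < m)
            exact mul_lt_mul_of_pos_right hKr h3
    have hK1 : (R.dm δ).r - (R.dm δ).l < ((K:ℤ) + 1) * m := by
      have : (((R.dm δ).r - (R.dm δ).l : ℤ) : ℝ) < (((K:ℤ) + 1) * m : ℤ) := by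
        push_cast
        push_cast at hw
        exact lt_of_le_of_lt hw hKm
      exact_mod_cast this
    have hK2 : (R.dm δ).h < ((K:ℤ) + 1) * m := by
      have : (((R.dm δ).h : ℤ) : ℝ) < (((K:ℤ) + 1) * m : ℤ) := by
        push_cast
        exact lt_of_le_of_lt hh hKm
      exact_mod_cast this
    have hρm : 2 * δ * ((m:ℝ) + 3) ≤ ρ := by
      have h2 : δ * (m:ℝ) ≤ s := by
        calc δ * (m:ℝ) ≤ δ * (s / δ) := mul_le_mul_of_nonneg_left hmr hδ.le
          _ = s := by field_simp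
      nlinarith
    have hbig := big_bound hok hδ hst2 hc h0 h1 (by omega : 0 < m)
      (by have := hok.l_neg; omega) hm_h hK1 hK2 hρm
    refine hbig.trans ?_
    have hKle : (K:ℝ) + 1 ≤ 3 * S / s := by
      have h2 : (K:ℝ) ≤ 2 * S / s := by rw [hK]; exact Nat.floor_le (by positivity)
      have h3 : 1 ≤ S / s := by rw [le_div_iff₀ hsp]; linarith
      have h4 : 3 * S / s = 2 * S / s + S / s := by ring
      rw [h4]
      linarith
    have hK0 : (0:ℝ) ≤ (K:ℝ) + 1 := by positivity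
    have hsq : 1 / s ^ 2 ≤ (256 + 1 / s0 ^ 2) / ρ ^ 2 := by
      rw [le_div_iff₀ hρ2]
      rcases min_choice (ρ / 16) s0 with h2 | h2
      · rw [hs, h2]
        have : 1 / (ρ / 16) ^ 2 * ρ ^ 2 = 256 := by field_simp; norm_num
        rw [this]
        have : 0 ≤ 1 / s0 ^ 2 := by positivity
        linarith
      · rw [hs, h2]
        have h3 : ρ ^ 2 ≤ 1 := by nlinarith
        have h4 : 0 ≤ 1 / s0 ^ 2 := by positivity
        nlinarith
    have hKsq : ((K:ℝ) + 1) ^ 2 ≤ 9 * S ^ 2 * (256 + 1 / s0 ^ 2) / ρ ^ 2 := by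
      calc ((K:ℝ) + 1) ^ 2 ≤ (3 * S / s) ^ 2 := pow_le_pow_left₀ hK0 hKle 2
        _ = 9 * S ^ 2 * (1 / s ^ 2) := by field_simp; ring
        _ ≤ 9 * S ^ 2 * ((256 + 1 / s0 ^ 2) / ρ ^ 2) :=
            mul_le_mul_of_nonneg_left hsq (by positivity)
        _ = _ := by ring
    calc ((K:ℝ) + 1) ^ 2 * (4 * C0 * δ ^ (-(3/4 : ℝ)) * ε)
        ≤ 9 * S ^ 2 * (256 + 1 / s0 ^ 2) / ρ ^ 2 * (4 * C0 * δ ^ (-(3/4 : ℝ)) * ε) := by
          refine mul_le_mul_of_nonneg_right hKsq ?_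
          have := mul_nonneg hC0.le hX
          nlinarith
      _ = (9 * S ^ 2 * (256 + 1 / s0 ^ 2) * (4 * C0)) * (ε * δ ^ (-(3/4 : ℝ))) / ρ ^ 2 := by
          ring
      _ ≤ C1 * (ε * δ ^ (-(3/4 : ℝ))) / ρ ^ 2 := by
          refine div_le_div_of_nonneg_right (mul_le_mul_of_nonneg_right ?_ hX) hρ2.le
          rw [hC1]
          have : 0 ≤ 4096 * S ^ 2 := by positivity
          linarith
  · push Not at hcase
    refine (neq_bound hc h0 h1 (P := fun F F' => ρ < hd R δ F F') ?_).trans ?_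
    · rintro F F' h2 rfl
      unfold hd at h2
      rw [Metric.hausdorffDist_self_zero] at h2
      linarith
    · have hcard := card_RE_le (R.dm δ).l (R.dm δ).r 0 (R.dm δ).h
      have hlneg := hok.l_neg
      have hrpos := hok.r_pos
      have hhpos := hok.h_pos
      rw [max_eq_right (by omega), max_eq_right (by omega)] at hcard
      have hcr : ((R.dm δ).edges.card : ℝ) ≤ 2 * ((((R.dm δ).r - (R.dm δ).l : ℤ) : ℝ) + 1) *
          (((R.dm δ).h : ℝ) + 1) := by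
        have h3 : (((R.dm δ).edges.card : ℤ) : ℝ) ≤
            ((2 * (((R.dm δ).r + 1 - (R.dm δ).l) * ((R.dm δ).h + 1 - 0)) : ℤ) : ℝ) := by
          exact_mod_cast hcard
        push_cast at h3 ⊢
        refine h3.trans (le_of_eq ?_)
        ring
      have hSδ : 1 ≤ S / δ := by rw [le_div_iff₀ hδ]; linarith
      have hcr2 : ((R.dm δ).edges.card : ℝ) ≤ 8 * (S / δ) ^ 2 := by
        have hw0 : (0:ℝ) ≤ (((R.dm δ).r - (R.dm δ).l : ℤ) : ℝ) := by
          exact_mod_cast (by omega : 0 ≤ (R.dm δ).r - (R.dm δ).l)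
        have hh0 : (0:ℝ) ≤ ((R.dm δ).h : ℝ) := by exact_mod_cast hhpos.le
        refine hcr.trans ?_
        have a1 : (((R.dm δ).r - (R.dm δ).l : ℤ) : ℝ) + 1 ≤ 2 * (S / δ) := by linarith
        have a2 : ((R.dm δ).h : ℝ) + 1 ≤ 2 * (S / δ) := by linarith
        calc 2 * ((((R.dm δ).r - (R.dm δ).l : ℤ) : ℝ) + 1) * (((R.dm δ).h : ℝ) + 1)
            ≤ 2 * (2 * (S / δ)) * (2 * (S / δ)) := by
              refine mul_le_mul (mul_le_mul_of_nonneg_left a1 (by norm_num)) a2 (by linarith)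
                (by positivity)
          _ = 8 * (S / δ) ^ 2 := by ring
      have hδρ : (S / δ) ^ 2 ≤ 256 * S ^ 2 / ρ ^ 2 := by
        rw [div_pow, div_le_div_iff₀ (by positivity) hρ2]
        have : ρ ^ 2 ≤ (16 * δ) ^ 2 := pow_le_pow_left₀ hρ.le hcase.le 2
        nlinarith [sq_nonneg S]
      calc 2 * ε * ((R.dm δ).edges.card : ℝ) ≤ 2 * ε * (8 * (256 * S ^ 2 / ρ ^ 2)) := by
            refine mul_le_mul_of_nonneg_left ?_ (by positivity)
            exact hcr2.trans (mul_le_mul_of_nonneg_left hδρ (by norm_num))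
        _ = 4096 * S ^ 2 * (ε * 1) / ρ ^ 2 := by ring
        _ ≤ 4096 * S ^ 2 * (ε * δ ^ (-(3/4 : ℝ))) / ρ ^ 2 := by
            refine div_le_div_of_nonneg_right (mul_le_mul_of_nonneg_left
              (mul_le_mul_of_nonneg_left hdp h0) (by positivity)) hρ2.le
        _ ≤ C1 * (ε * δ ^ (-(3/4 : ℝ))) / ρ ^ 2 := by
            refine div_le_div_of_nonneg_right (mul_le_mul_of_nonneg_right ?_ hX) hρ2.le
            rw [hC1]
            have : 0 ≤ 9 * S ^ 2 * (256 + 1 / s0 ^ 2) * (4 * C0) := by positivity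
            linarith

end Pool.Agent.Zk60.NW
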