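import Pool.Agent.Zk60.NW.Ev2
import Pool.Agent.Zk80.VS
import Pool.Agent.H984R4.NP.ModelLem

/-!
Near-critical stability of the probabilities that the two clusters reach a box.
-/

set_option autoImplicit false

namespace Pool.Agent.Zk60.NW

open H974 Finset H342P H984P H984N

theorem mem4 {x a b c d : ℤ} : x ∈ ([a, b, c, d] : List ℤ).toFinset ↔
    x = a ∨ x = b ∨ x = c ∨ x = d := by
  simp only [List.mem_toFinset, List.mem_cons, List.not_mem_nil, or_false]

theorem mem6 {x a b c d e f : ℤ} : x ∈ ([a, b, c, d, e, f] : List ℤ).toFinset ↔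
    x = a ∨ x = b ∨ x = c ∨ x = d ∨ x = e ∨ x = f := by
  simp only [List.mem_toFinset, List.mem_cons, List.not_mem_nil, or_false]

theorem mem8 {x a b c d e f g h : ℤ} : x ∈ ([a, b, c, d, e, f, g, h] : List ℤ).toFinset ↔
    x = a ∨ x = b ∨ x = c ∨ x = d ∨ x = e ∨ x = f ∨ x = g ∨ x = h := by
  simp only [List.mem_toFinset, List.mem_cons, List.not_mem_nil, or_false]

theorem near_zero {a b : ℤ} (h : a = b) : |((a - b : ℤ) : ℝ)| ≤ 1 := by
  rw [h]; simp

theorem near_one {a b : ℤ} (h : a + 1 = b ∨ a = b + 1) : |((a - b : ℤ) : ℝ)| ≤ 1 := by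
  rcases h with h | h
  · rw [show a - b = -1 by omega]; simp
  · rw [show a - b = 1 by omega]; simp

/-- Near-critical stability for the two clusters. -/
theorem box_stab (R : Rect) : ∃ C δ0 : ℝ, 0 < C ∧ 0 < δ0 ∧ δ0 ≤ 1 ∧ ∀ δ : ℝ, 0 < δ → δ ≤ δ0 →
    (R.dm δ).Ok ∧ ∀ x1 x2 y1 y2 : ℤ, Bx (R.dm δ) x1 x2 y1 y2 → ∀ q : ℝ, 0 ≤ q → q ≤ 1 →
      |Pr (fun _ => q) (R.dm δ).edges (HitV (R.dm δ) x1 x2 y1 y2) -
        Pr (fun _ => 1/2) (R.dm δ).edges (HitV (R.dm δ) x1 x2 y1 y2)| ≤
          C * |q - 1/2| * δ ^ (-(3/4 : ℝ)) ∧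
      |Pr (fun _ => q) (R.dm δ).edges (HitF (R.dm δ) x1 x2 y1 y2) -
        Pr (fun _ => 1/2) (R.dm δ).edges (HitF (R.dm δ) x1 x2 y1 y2)| ≤
          C * |q - 1/2| * δ ^ (-(3/4 : ℝ)) := by
  obtain ⟨κ, S, δ0, hκ, hS, hδ0, hδ01, hsh⟩ := R.shape
  obtain ⟨C, hC, hst⟩ := Zk80.VS.vs_stab (S + 1) 1 8 (by norm_num)
  refine ⟨C, δ0, hC, hδ0, hδ01, ?_⟩
  intro δ hδ hδle
  have hshape := hsh δ hδ hδle
  refine ⟨hshape.ok, ?_⟩
  intro x1 x2 y1 y2 hb q h0 h1
  obtain ⟨D, hD⟩ : ∃ D : Dm, D = R.dm δ := ⟨_, rfl⟩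
  rw [← hD] at hshape hb ⊢
  have hok := hshape.ok
  have hδ1 : δ ≤ 1 := hδle.trans hδ01
  have hw := hshape.w_le
  have hh := hshape.h_le
  -- the size of the rectangle
  have hsz : ∀ a : ℤ, D.l ≤ a → a ≤ D.r → |δ * (a:ℝ)| ≤ S + 1 := by
    intro a h2 h3
    have h4 : |a| ≤ D.r - D.l := by
      have := hok.l_neg
      have := hok.r_pos
      rw [abs_le]
      constructor <;> omega
    have h5 : |(a:ℝ)| ≤ S / δ := by
      have : ((|a| : ℤ) : ℝ) ≤ ((D.r - D.l : ℤ) : ℝ) := by exact_mod_cast h4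
      rw [Int.cast_abs] at this
      exact this.trans hw
    rw [abs_mul, abs_of_pos hδ]
    calc δ * |(a:ℝ)| ≤ δ * (S / δ) := mul_le_mul_of_nonneg_left h5 hδ.le
      _ = S := by field_simp
      _ ≤ S + 1 := by linarith
  have hsz2 : ∀ a : ℤ, -1 ≤ a → a ≤ D.h → |δ * (a:ℝ)| ≤ S + 1 := by
    intro a h2 h3
    have h4 : (-1:ℝ) ≤ a := by exact_mod_cast h2
    have h5 : (a:ℝ) ≤ D.h := by exact_mod_cast h3
    rw [abs_le]
    constructor
    · nlinarith
    · have h6 : δ * (a:ℝ) ≤ δ * (S / δ) := mul_le_mul_of_nonneg_left (h5.trans hh) hδ.le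
      have h7 : δ * (S / δ) = S := by field_simp
      linarith
  have hb' := hb
  obtain ⟨b1, b2, b3, b4, b5, b6⟩ := hb'
  have hok' := hok
  obtain ⟨d1, d2, d3, d4, d5⟩ := hok'
  constructor
  · rw [hitV_pr hok hb, hitV_pr hok hb]
    refine hst δ hδ hδ1 (V1 D x1 x2 y1 y2) ([D.l, D.r + 1, x1 + 1, x2] : List ℤ).toFinset
      ([0, D.h + 1, y1 + 1, y2] : List ℤ).toFinset
      ((List.toFinset_card_le _).trans (by simp)) ((List.toFinset_card_le _).trans (by simp))
      ?_ ?_ ?_ (WA D) (J1 x1 x2 y1 y2) ?_ q h0 h1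
    · intro v hv
      rw [mem_V1] at hv
      exact ⟨hsz _ hv.1.1.1 hv.1.1.2, hsz2 _ (by omega) hv.1.2.2⟩
    · intro x y hx
      rw [mem4] at hx
      rw [mem_V1, mem_V1]
      simp only
      omega
    · intro x y hy
      rw [mem4] at hy
      rw [mem_V1, mem_V1]
      simp only
      omega
    · rintro ⟨x, y⟩ (hv | hv)
      · rcases hv with ⟨h2, h3, h4⟩ | ⟨h2, h3, h4⟩ | ⟨h2, h3, h4⟩
        · simp only at h2 h3 h4
          refine ⟨by rw [mem_V1]; simp only; omega, Or.inr ⟨D.h + 1, by rw [mem4]; omega, ?_⟩⟩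
          exact near_one (by simp only; omega)
        · simp only at h2 h3 h4
          refine ⟨by rw [mem_V1]; simp only; omega, Or.inl ⟨D.l, by rw [mem4]; omega, ?_⟩⟩
          exact near_zero (by simp only; omega)
        · simp only at h2 h3 h4
          refine ⟨by rw [mem_V1]; simp only; omega, Or.inr ⟨0, by rw [mem4]; omega, ?_⟩⟩
          exact near_zero (by simp only; omega)
      · obtain ⟨h2, h3⟩ := hv
        unfold inR at h2
        simp only at h2 h3
        refine ⟨by rw [mem_V1]; simp only; omega, ?_⟩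
        by_cases c1 : x = x1
        · exact Or.inl ⟨x1 + 1, by rw [mem4]; omega, near_one (by simp only; omega)⟩
        · by_cases c2 : x = x2
          · exact Or.inl ⟨x2, by rw [mem4]; omega, near_zero (by simp only; omega)⟩
          · by_cases c3 : y = y1
            · exact Or.inr ⟨y1 + 1, by rw [mem4]; omega, near_one (by simp only; omega)⟩
            · exact Or.inr ⟨y2, by rw [mem4]; omega, near_zero (by simp only; omega)⟩
  · rw [hitF_pr hok hb, hitF_pr hok hb]
    have e1 : |q - 1/2| = |(1 - q) - 1/2| := by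
      rw [show (1 - q) - 1/2 = -(q - 1/2) by ring, abs_neg]
    have e2 : (1:ℝ) - 1/2 = 1/2 := by norm_num
    rw [e1, e2]
    refine hst δ hδ hδ1 (V2 D x1 x2 y1 y2) ([D.l, D.r + 1, 0, D.t, x1, x2] : List ℤ).toFinset
      ([0, D.h, -1, 1, D.h - 1, D.h + 1, y1, y2] : List ℤ).toFinset
      ((List.toFinset_card_le _).trans (by simp)) ((List.toFinset_card_le _).trans (by simp))
      ?_ ?_ ?_ D.outer (J2 D x1 x2 y1 y2) ?_ (1 - q) (by linarith) (by linarith)
    · intro v hv
      rw [mem_V2] at hv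
      exact ⟨hsz _ (by omega) (by omega), hsz2 _ (by omega) (by omega)⟩
    · intro x y hx
      rw [mem6] at hx
      rw [mem_V2, mem_V2]
      simp only
      omega
    · intro x y hy
      rw [mem8] at hy
      rw [mem_V2, mem_V2]
      simp only
      omega
    · rintro ⟨x, y⟩ (hv | hv)
      · refine ⟨outer_V2 hok hb hv, ?_⟩
        rcases hv with ⟨h2, h3, h4⟩ | ⟨h2, h3, h4⟩ | ⟨h2, h3, h4⟩
        · simp only at h2 h3 h4
          exact Or.inr ⟨-1, by rw [mem8]; omega, near_zero (by simp only; omega)⟩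
        · simp only at h2 h3 h4
          exact Or.inl ⟨D.r + 1, by rw [mem6]; omega, near_one (by simp only; omega)⟩
        · simp only at h2 h3 h4
          exact Or.inr ⟨D.h, by rw [mem8]; omega, near_zero (by simp only; omega)⟩
      · obtain ⟨h2, h3⟩ := hv
        refine ⟨h2, ?_⟩
        rw [mem_V2] at h2
        unfold inR at h3
        simp only at h2 h3
        by_cases c1 : x = x1 - 1
        · exact Or.inl ⟨x1, by rw [mem6]; omega, near_one (by simp only; omega)⟩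
        · by_cases c2 : x = x2
          · exact Or.inl ⟨x2, by rw [mem6]; omega, near_zero (by simp only; omega)⟩
          · by_cases c3 : y = y1 - 1
            · exact Or.inr ⟨y1, by rw [mem8]; omega, near_one (by simp only; omega)⟩
            · exact Or.inr ⟨y2, by rw [mem8]; omega, near_zero (by simp only; omega)⟩

end Pool.Agent.Zk60.NW
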